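import Pool.Agent.K3h54.Lps.Quat
import Pool.Agent.K3h54.Lps.R2

/-!
# Counting the LPS words by the trace
-/

set_option autoImplicit false

open Finset Quaternion

namespace Pool.Agent.K3h54.Lps

open Pool.Agent.K3h92

lemma sum_exp_le (β : ℝ) (hβ : 0 < β) (N : ℕ) :
    ∑ s ∈ range N, Real.sqrt (s + 1) * Real.exp (-(β * (s + 1))) ≤ 2 / (β * Real.sqrt β) := by
  have hsβ : 0 < Real.sqrt β := Real.sqrt_pos.2 hβ
  set r : ℝ := Real.exp (-(β / 2)) with hr
  have hr0 : 0 < r := Real.exp_pos _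
  have hr1 : r < 1 := by rw [hr, Real.exp_lt_one_iff]; linarith
  have h1 : ∀ s ∈ range N, Real.sqrt (s + 1) * Real.exp (-(β * (s + 1))) ≤
      1 / Real.sqrt β * r * r ^ s := by
    intro s _
    have hs : (0 : ℝ) < (s : ℝ) + 1 := by positivity
    have e1 : Real.sqrt β * Real.sqrt (s + 1) ≤ Real.exp (β * (s + 1) / 2) := by
      rw [← Real.sqrt_mul hβ.le]
      rw [Real.sqrt_le_left (Real.exp_pos _).le, ← Real.exp_nat_mul]
      have := Real.add_one_le_exp (β * (s + 1))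
      have e : ((2 : ℕ) : ℝ) * (β * (s + 1) / 2) = β * (s + 1) := by push_cast; ring
      rw [e]; linarith
    have e2 : r * r ^ s = Real.exp (-(β * (s + 1) / 2)) := by
      rw [hr, ← pow_succ', ← Real.exp_nat_mul]
      congr 1
      push_cast; ring
    have e3 : Real.exp (-(β * (s + 1))) = Real.exp (-(β * (s + 1) / 2)) * Real.exp (-(β * (s + 1) / 2)) := by
      rw [← Real.exp_add]; congr 1; ring
    rw [mul_assoc, e2, e3, ← mul_assoc]
    apply mul_le_mul_of_nonneg_right _ (Real.exp_pos _).le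
    rw [le_div_iff₀ hsβ]
    calc Real.sqrt (s + 1) * Real.exp (-(β * (s + 1) / 2)) * Real.sqrt β
        = (Real.sqrt β * Real.sqrt (s + 1)) * Real.exp (-(β * (s + 1) / 2)) := by ring
      _ ≤ Real.exp (β * (s + 1) / 2) * Real.exp (-(β * (s + 1) / 2)) :=
          mul_le_mul_of_nonneg_right e1 (Real.exp_pos _).le
      _ = 1 := by rw [← Real.exp_add]; simp
  refine (sum_le_sum h1).trans ?_
  rw [← mul_sum]
  have h2 : ∑ s ∈ range N, r ^ s ≤ 1 / (1 - r) := by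
    rw [geom_sum_eq hr1.ne]
    rw [← neg_div_neg_eq, neg_sub, neg_sub]
    have : 0 ≤ r ^ N := by positivity
    have h1r : 0 < 1 - r := by linarith
    gcongr
    linarith
  have h3 : r * (1 / (1 - r)) ≤ 2 / β := by
    rw [mul_one_div, div_le_div_iff₀ (by linarith) hβ]
    have e4 : r * Real.exp (β / 2) = 1 := by rw [hr, ← Real.exp_add]; simp
    have := Real.add_one_le_exp (β / 2)
    nlinarith
  calc 1 / Real.sqrt β * r * ∑ s ∈ range N, r ^ s ≤ 1 / Real.sqrt β * r * (1 / (1 - r)) := by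
        gcongr
    _ = 1 / Real.sqrt β * (r * (1 / (1 - r))) := by ring
    _ ≤ 1 / Real.sqrt β * (2 / β) := by gcongr
    _ = 2 / (β * Real.sqrt β) := by field_simp

lemma fiber_card (m : ℕ) (a b : ℤ) :
    ((I (2 * m)).filter (fun w => (Phi (2 * m) w).re = a ∧ (Phi (2 * m) w).imI = b)).card ≤
      (R2 ((5 : ℤ) ^ (2 * m) - a ^ 2 - b ^ 2).toNat).card := by
  apply card_le_card_of_injOn (fun w => ((Phi (2 * m) w).imJ, (Phi (2 * m) w).imK))
  · intro w hw
    rw [mem_coe, mem_filter] at hw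
    obtain ⟨hw, h1, h2⟩ := hw
    have h3 := normSq_Phi (2 * m) w hw
    rw [Quaternion.normSq_def', h1, h2] at h3
    rw [mem_coe, mem_R2]
    have h4 : (0 : ℤ) ≤ 5 ^ (2 * m) - a ^ 2 - b ^ 2 := by
      nlinarith [sq_nonneg (Phi (2 * m) w).imJ, sq_nonneg (Phi (2 * m) w).imK]
    rw [Int.toNat_of_nonneg h4]
    linarith
  · intro v hv w hw h
    rw [mem_coe, mem_filter] at hv hw
    apply Phi_inj (2 * m) v w hv.1 hw.1
    have h' := Prod.mk.inj h
    ext
    · rw [hv.2.1, hw.2.1]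
    · rw [hv.2.2, hw.2.2]
    · exact h'.1
    · exact h'.2

lemma re_natAbs_le (m : ℕ) (w : List Ltr) (hw : w ∈ I (2 * m)) :
    (Phi (2 * m) w).re.natAbs ≤ 5 ^ m := by
  have h3 := normSq_Phi (2 * m) w hw
  rw [Quaternion.normSq_def'] at h3
  have h4 : (Phi (2 * m) w).re ^ 2 ≤ ((5 : ℤ) ^ m) ^ 2 := by
    rw [← pow_mul, mul_comm m 2]
    nlinarith [sq_nonneg (Phi (2 * m) w).imJ, sq_nonneg (Phi (2 * m) w).imK,
      sq_nonneg (Phi (2 * m) w).imI]
  have h5 := abs_le_of_sq_le_sq h4 (by positivity)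
  have : ((Phi (2 * m) w).re.natAbs : ℤ) ≤ ((5 ^ m : ℕ) : ℤ) := by
    rw [Int.natCast_natAbs]; push_cast
    exact h5
  exact_mod_cast this

/-- The words at distance `s`. -/
def Js (m s : ℕ) : Finset (List Ltr) :=
  (I (2 * m)).filter (fun w => 5 ^ m - (Phi (2 * m) w).re.natAbs = s)

lemma mem_Js_re (m s : ℕ) (w : List Ltr) (hw : w ∈ Js m s) (hs : s ≤ 5 ^ m) :
    (Phi (2 * m) w).re = ((5 ^ m - s : ℕ) : ℤ) ∨ (Phi (2 * m) w).re = -((5 ^ m - s : ℕ) : ℤ) := by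
  rw [Js, mem_filter] at hw
  have h1 := re_natAbs_le m w hw.1
  have h2 : (Phi (2 * m) w).re.natAbs = 5 ^ m - s := by omega
  rw [← h2]
  omega

lemma card_Js_zero (m : ℕ) : (Js m 0).card ≤ 2 := by
  have : (Js m 0).card ≤ ({((5 ^ m : ℕ) : ℤ), -((5 ^ m : ℕ) : ℤ)} : Finset ℤ).card := by
    apply card_le_card_of_injOn (fun w => (Phi (2 * m) w).re)
    · intro w hw
      have := mem_Js_re m 0 w (mem_coe.1 hw) (Nat.zero_le _)
      simpa using this
    · intro v hv w hw h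
      have hv' := mem_Js_re m 0 v (mem_coe.1 hv) (Nat.zero_le _)
      have hw' := mem_Js_re m 0 w (mem_coe.1 hw) (Nat.zero_le _)
      rw [mem_coe, Js, mem_filter] at hv hw
      apply Phi_inj (2 * m) v w hv.1 hw.1
      have key : ∀ u : List Ltr, u ∈ I (2 * m) →
          ((Phi (2 * m) u).re = ((5 ^ m - 0 : ℕ) : ℤ) ∨ (Phi (2 * m) u).re = -((5 ^ m - 0 : ℕ) : ℤ)) →
          (Phi (2 * m) u).imI = 0 ∧ (Phi (2 * m) u).imJ = 0 ∧ (Phi (2 * m) u).imK = 0 := by
        intro u hu h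
        have h3 := normSq_Phi (2 * m) u hu
        rw [Quaternion.normSq_def'] at h3
        have h4 : (Phi (2 * m) u).re ^ 2 = 5 ^ (2 * m) := by
          rcases h with h | h <;> rw [h] <;> push_cast <;> rw [Nat.sub_zero] <;> push_cast <;> ring
        refine ⟨?_, ?_, ?_⟩ <;>
        · apply pow_eq_zero_iff (two_ne_zero) |>.1
          nlinarith [sq_nonneg (Phi (2 * m) u).imJ, sq_nonneg (Phi (2 * m) u).imK,
            sq_nonneg (Phi (2 * m) u).imI]
      obtain ⟨a1, a2, a3⟩ := key v hv.1 hv'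
      obtain ⟨b1, b2, b3⟩ := key w hw.1 hw'
      ext
      · exact h
      · rw [a1, b1]
      · rw [a2, b2]
      · rw [a3, b3]
  exact this.trans card_le_two

lemma card_Js_le (m s : ℕ) (D : ℝ) (hD : ∀ a b : ℤ,
    ((R2 ((5 : ℤ) ^ (2 * m) - a ^ 2 - b ^ 2).toNat).card : ℝ) ≤ D) (hs : s ≤ 5 ^ m) (hs1 : 1 ≤ s) :
    ((Js m s).card : ℝ) ≤ 6 * D * Real.sqrt (2 * 5 ^ m * s) := by
  set K := Nat.sqrt (2 * 5 ^ m * s) with hK
  have hD0 : 0 ≤ D := le_trans (Nat.cast_nonneg _) (hD 0 0)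
  set T : Finset (ℤ × ℤ) := ({((5 ^ m - s : ℕ) : ℤ), -((5 ^ m - s : ℕ) : ℤ)} : Finset ℤ) ×ˢ
    Icc (-(K : ℤ)) K with hT
  have h1 : (Js m s).card ≤ ⌊D⌋₊ * T.card := by
    apply card_le_mul_card_image_of_maps_to (f := fun w => ((Phi (2 * m) w).re, (Phi (2 * m) w).imI))
    · intro w hw
      have hre := mem_Js_re m s w hw hs
      rw [hT, mem_product, mem_insert, mem_singleton, mem_Icc]
      refine ⟨hre, ?_⟩
      simp only
      rw [Js, mem_filter] at hw
      have h3 := normSq_Phi (2 * m) w hw.1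
      rw [Quaternion.normSq_def'] at h3
      have h4 : (Phi (2 * m) w).re ^ 2 = ((5 ^ m - s : ℕ) : ℤ) ^ 2 := by
        rcases hre with h | h <;> rw [h]
        ring
      have h5 : (Phi (2 * m) w).imI ^ 2 ≤ 2 * 5 ^ m * s := by
        rw [Nat.cast_sub hs] at h4
        push_cast at h4
        have h6 : (5 : ℤ) ^ (2 * m) = (5 ^ m) ^ 2 := by rw [← pow_mul, mul_comm]
        rw [h6, h4] at h3
        nlinarith [sq_nonneg (Phi (2 * m) w).imJ, sq_nonneg (Phi (2 * m) w).imK, sq_nonneg (s : ℤ)]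
      have h6 : (Phi (2 * m) w).imI.natAbs ≤ K := by
        rw [hK, Nat.le_sqrt']
        zify
        rw [sq_abs]
        exact h5
      omega
    · intro p _
      apply Nat.le_floor
      refine le_trans ?_ (hD p.1 p.2)
      rw [Nat.cast_le]
      refine le_trans (card_le_card ?_) (fiber_card m p.1 p.2)
      intro w hw
      rw [mem_filter, Js, mem_filter] at hw
      rw [mem_filter]
      refine ⟨hw.1.1, ?_, ?_⟩
      · rw [← hw.2]
      · rw [← hw.2]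
  have h2 : T.card ≤ 2 * (2 * K + 1) := by
    rw [hT, card_product, Int.card_Icc]
    apply Nat.mul_le_mul card_le_two
    omega
  have h3 : (K : ℝ) ≤ Real.sqrt (2 * 5 ^ m * s) := by
    apply Real.le_sqrt_of_sq_le
    have := Nat.sqrt_le' (2 * 5 ^ m * s)
    rw [← hK] at this
    exact_mod_cast this
  have h4 : 1 ≤ Real.sqrt (2 * 5 ^ m * s) := by
    apply Real.le_sqrt_of_sq_le
    have : (1 : ℝ) ≤ 5 ^ m := one_le_pow₀ (by norm_num)
    have : (1 : ℝ) ≤ s := by exact_mod_cast hs1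
    nlinarith
  calc ((Js m s).card : ℝ) ≤ ((⌊D⌋₊ * T.card : ℕ) : ℝ) := by exact_mod_cast h1
    _ ≤ D * (2 * (2 * K + 1)) := by
        push_cast
        apply mul_le_mul (Nat.floor_le hD0) (by exact_mod_cast h2) (by positivity) hD0
    _ ≤ D * (2 * (3 * Real.sqrt (2 * 5 ^ m * s))) := by
        apply mul_le_mul_of_nonneg_left _ hD0
        linarith
    _ = _ := by ring

lemma term_le (m n s : ℕ) (hs : s ≤ 5 ^ m) (a : ℤ)
    (ha : a = ((5 ^ m - s : ℕ) : ℤ) ∨ a = -((5 ^ m - s : ℕ) : ℤ)) :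
    (((a : ℝ)) ^ 2 / 5 ^ (2 * m)) ^ n ≤ Real.exp (-(2 * n / 5 ^ m * s)) := by
  have h5 : (0 : ℝ) < 5 ^ m := by positivity
  have h1 : ((a : ℝ)) ^ 2 / 5 ^ (2 * m) = (1 - s / 5 ^ m) ^ 2 := by
    have h4 : (a : ℝ) ^ 2 = ((5 : ℝ) ^ m - s) ^ 2 := by
      rcases ha with h | h <;> rw [h] <;> rw [Nat.cast_sub hs] <;> push_cast <;> ring
    rw [h4, show (5 : ℝ) ^ (2 * m) = (5 ^ m) ^ 2 by rw [← pow_mul, mul_comm]]
    field_simp
  have h2 : 0 ≤ 1 - (s : ℝ) / 5 ^ m := by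
    rw [sub_nonneg, div_le_one h5]
    exact_mod_cast hs
  have h3 : 1 - (s : ℝ) / 5 ^ m ≤ Real.exp (-(s / 5 ^ m)) := by
    have := Real.add_one_le_exp (-((s : ℝ) / 5 ^ m))
    linarith
  rw [h1, ← pow_mul]
  calc (1 - (s : ℝ) / 5 ^ m) ^ (2 * n) ≤ (Real.exp (-(s / 5 ^ m))) ^ (2 * n) :=
        pow_le_pow_left₀ h2 h3 _
    _ = Real.exp (-(2 * n / 5 ^ m * s)) := by
        rw [← Real.exp_nat_mul]; congr 1; push_cast; ring

theorem sum_ker4_le : ∃ C : ℝ, 0 ≤ C ∧ ∀ m n : ℕ, 1 ≤ n →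
    ∑ w ∈ I (2 * m), ker4 n (w.map lps).prod ≤
      2 + C * (5 : ℝ) ^ ((2 + 1 / 20 : ℝ) * m) / (n : ℝ) ^ (3 / 2 : ℝ) := by
  obtain ⟨C, hC, hR⟩ := R2_bound (1 / 40) (by norm_num)
  refine ⟨6 * C, by linarith, ?_⟩
  intro m n hn
  set D : ℝ := C * (5 : ℝ) ^ ((m : ℝ) / 20) with hDd
  have hD : ∀ a b : ℤ, ((R2 ((5 : ℤ) ^ (2 * m) - a ^ 2 - b ^ 2).toNat).card : ℝ) ≤ D := by
    intro a b
    have h := hR ((5 : ℤ) ^ (2 * m) - a ^ 2 - b ^ 2).toNat (5 ^ (2 * m)) (by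
      have h0 : (0 : ℤ) < 5 ^ (2 * m) := by positivity
      have h1 := sq_nonneg a
      have h2 := sq_nonneg b
      rw [Int.toNat_le]
      push_cast
      linarith) (Nat.one_le_pow _ _ (by norm_num))
    refine h.trans (le_of_eq ?_)
    rw [hDd]
    congr 1
    push_cast
    rw [← Real.rpow_natCast, ← Real.rpow_mul (by norm_num)]
    congr 1
    push_cast
    ring
  have hD0 : 0 ≤ D := by positivity
  have h5 : (0 : ℝ) < 5 ^ m := by positivity
  set N := 5 ^ m with hN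
  have hmap : ∀ w ∈ I (2 * m), 5 ^ m - (Phi (2 * m) w).re.natAbs ∈ range (N + 1) := by
    intro w _
    rw [mem_range]
    exact Nat.lt_succ_of_le (Nat.sub_le _ _)
  rw [← sum_fiberwise_of_maps_to hmap]
  have hterm : ∀ s ∈ range (N + 1), ∑ w ∈ (I (2 * m)).filter
      (fun w => 5 ^ m - (Phi (2 * m) w).re.natAbs = s), ker4 n (w.map lps).prod ≤
      ((Js m s).card : ℝ) * Real.exp (-(2 * n / 5 ^ m * s)) := by
    intro s hs
    rw [mem_range] at hs
    have : (Js m s) = (I (2 * m)).filter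
      (fun w => 5 ^ m - (Phi (2 * m) w).re.natAbs = s) := rfl
    rw [← this, ← nsmul_eq_mul]
    apply sum_le_card_nsmul
    intro w hw
    rw [ker4_Phi n (2 * m) w (mem_filter.1 hw).1]
    exact term_le m n s (by omega) _ (mem_Js_re m s w hw (by omega))
  refine (sum_le_sum hterm).trans ?_
  rw [sum_range_succ', add_comm]
  apply add_le_add
  · have := card_Js_zero m
    simp only [Nat.cast_zero, mul_zero, neg_zero, Real.exp_zero, mul_one]
    exact_mod_cast this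
  · set β : ℝ := 2 * n / 5 ^ m with hβ
    have hn0 : (0 : ℝ) < n := by exact_mod_cast hn
    have hβ0 : 0 < β := by positivity
    have h6 : ∀ s ∈ range N, ((Js m (s + 1)).card : ℝ) * Real.exp (-(β * ((s + 1 : ℕ) : ℝ))) ≤
        6 * D * Real.sqrt (2 * 5 ^ m) * (Real.sqrt (s + 1) * Real.exp (-(β * (s + 1)))) := by
      intro s hs
      rw [mem_range] at hs
      have h7 := card_Js_le m (s + 1) D hD (by omega) (by omega)
      have h8 : Real.sqrt (2 * 5 ^ m * ((s + 1 : ℕ) : ℝ)) =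
          Real.sqrt (2 * 5 ^ m) * Real.sqrt (s + 1) := by
        rw [Real.sqrt_mul (by positivity)]; push_cast; rfl
      rw [h8] at h7
      push_cast
      calc _ ≤ (6 * D * (Real.sqrt (2 * 5 ^ m) * Real.sqrt (s + 1))) * Real.exp (-(β * (s + 1))) :=
            mul_le_mul_of_nonneg_right h7 (Real.exp_pos _).le
        _ = _ := by ring
    refine (sum_le_sum h6).trans ?_
    rw [← mul_sum]
    refine (mul_le_mul_of_nonneg_left (sum_exp_le β hβ0 N) (by positivity)).trans (le_of_eq ?_)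
    have e1 : (n : ℝ) ^ (3 / 2 : ℝ) = n * Real.sqrt n := by
      rw [show (3 / 2 : ℝ) = 1 + 1 / 2 by norm_num, Real.rpow_add hn0, Real.rpow_one,
        Real.sqrt_eq_rpow]
    have e2 : (5 : ℝ) ^ ((2 + 1 / 20 : ℝ) * m) = 5 ^ ((m : ℝ) / 20) * (5 ^ m) ^ 2 := by
      rw [show (2 + 1 / 20 : ℝ) * m = (m : ℝ) / 20 + (m : ℝ) * 2 by ring,
        Real.rpow_add (by norm_num), Real.rpow_mul (by norm_num), Real.rpow_natCast]
      norm_num
    have e3 : Real.sqrt β = Real.sqrt 2 * Real.sqrt n / Real.sqrt (5 ^ m) := by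
      rw [hβ, Real.sqrt_div (by positivity), Real.sqrt_mul (by norm_num)]
    have e4 : Real.sqrt (2 * 5 ^ m) = Real.sqrt 2 * Real.sqrt (5 ^ m) :=
      Real.sqrt_mul (by norm_num) _
    rw [e1, e2, e3, e4, hβ, hDd]
    have g1 : Real.sqrt ((5 : ℝ) ^ m) ^ 2 = 5 ^ m := Real.sq_sqrt (by positivity)
    have g2 : 0 < Real.sqrt ((5 : ℝ) ^ m) := Real.sqrt_pos.2 (by positivity)
    have g3 : 0 < Real.sqrt (n : ℝ) := Real.sqrt_pos.2 hn0
    have g4 : 0 < Real.sqrt (2 : ℝ) := Real.sqrt_pos.2 (by norm_num)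
    field_simp
    rw [g1]

end Pool.Agent.K3h54.Lps
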