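import Pool.Agent.K3h54.Lps.Rep

/-!
# The gap of the LPS rotations on the representations with a large Casimir constant
-/

set_option autoImplicit false

open Finset Matrix

namespace Pool.Agent.K3h54.Lps

open Pool.Agent.K3h92

lemma hecke_eig {V : Type} [NormedAddCommGroup V] [InnerProductSpace ℝ V] (B : V →ₗ[ℝ] V)
    (v : V) (lam : ℝ) (h : B v = lam • v) : ∀ l : ℕ, (hecke B l) v = (hecke lam l) • v
  | 0 => by simp [hecke]
  | 1 => by simpa [hecke] using h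
  | (l + 2) => by
    have h1 := hecke_eig B v lam h (l + 1)
    have h0 := hecke_eig B v lam h l
    have e5 : (5 : V →ₗ[ℝ] V) * hecke B l = (5 : ℝ) • hecke B l := by
      rw [← map_ofNat (algebraMap ℝ (V →ₗ[ℝ] V)) 5, ← Algebra.smul_def]
    rw [hecke, hecke, e5, LinearMap.sub_apply, Module.End.mul_apply, h1, map_smul, h,
      LinearMap.smul_apply, h0]
    module

lemma hecke_ge (z z' lam : ℝ) (hz : 0 < z) (hz' : 0 < z') (h5 : z * z' = 5) (hl : lam = z + z') :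
    ∀ l : ℕ, 0 < hecke lam l ∧ z * hecke lam l ≤ hecke lam (l + 1)
  | 0 => by simp [hecke]; linarith
  | (l + 1) => by
    obtain ⟨h1, h2⟩ := hecke_ge z z' lam hz hz' h5 hl l
    have h3 : 0 < hecke lam (l + 1) := lt_of_lt_of_le (by positivity) h2
    refine ⟨h3, ?_⟩
    have e : hecke lam (l + 1 + 1) - z * hecke lam (l + 1) =
        z' * (hecke lam (l + 1) - z * hecke lam l) := by
      rw [hecke, hl, ← h5]; ring
    have : 0 ≤ z' * (hecke lam (l + 1) - z * hecke lam l) :=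
      mul_nonneg hz'.le (by linarith)
    linarith

lemma hecke_ge_pow (z z' lam : ℝ) (hz : 0 < z) (hz' : 0 < z') (h5 : z * z' = 5)
    (hl : lam = z + z') (l : ℕ) : z ^ l ≤ hecke lam l := by
  induction l with
  | zero => simp [hecke]
  | succ l ih =>
    have := (hecke_ge z z' lam hz hz' h5 hl l).2
    rw [pow_succ']
    exact (mul_le_mul_of_nonneg_left ih hz.le).trans this

/-- `5 ^ (23 / 24)` -/
noncomputable def ZZ : ℝ := (5 : ℝ) ^ (23 / 24 : ℝ)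

lemma ZZ_gt_one : 1 < ZZ := Real.one_lt_rpow (by norm_num) (by norm_num)

lemma ZZ_lt_five : ZZ < 5 := by
  have : (5 : ℝ) ^ (23 / 24 : ℝ) < (5 : ℝ) ^ (1 : ℝ) :=
    Real.rpow_lt_rpow_of_exponent_lt (by norm_num) (by norm_num)
  simpa [ZZ] using this

lemma ZZ_gap : 0 < 6 - (ZZ + 5 / ZZ) := by
  have h1 := ZZ_gt_one
  have h2 := ZZ_lt_five
  have h0 : 0 < ZZ := by linarith
  have e : 6 - (ZZ + 5 / ZZ) = (5 - ZZ) * (ZZ - 1) / ZZ := by
    field_simp; ring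
  rw [e]
  apply div_pos _ h0
  apply mul_pos <;> linarith

lemma numeric (C : ℝ) : ∃ e0 : ℝ, 0 < e0 ∧ ∀ e : ℝ, e0 ≤ e → ∃ l n : ℕ, 1 ≤ n ∧ 2 * e ≤ n + 1 ∧
    4 * (n + 1) * Real.sqrt n * (C * (5 : ℝ) ^ l +
      C * (5 : ℝ) ^ ((2 + 1 / 20 : ℝ) * l) / (n : ℝ) ^ (3 / 2 : ℝ)) <
      (ZZ ^ l) ^ 2 * (e / 3) ^ (1 / 4 : ℝ) := by
  set D : ℝ := max C 1 with hD
  have hD1 : 1 ≤ D := le_max_right _ _
  have hCD : C ≤ D := le_max_left _ _
  -- choose `L`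
  obtain ⟨L, hL⟩ : ∃ L : ℕ, 160 * D < ((5 : ℝ) ^ (1 / 30 : ℝ)) ^ L :=
    pow_unbounded_of_one_lt _ (Real.one_lt_rpow (by norm_num) (by norm_num))
  refine ⟨5 ^ (L + 1), by positivity, ?_⟩
  intro e he
  have he1 : 1 ≤ e := by
    refine le_trans ?_ he
    exact one_le_pow₀ (by norm_num)
  set n := ⌈2 * e⌉₊ with hn
  have hn1 : 2 * e ≤ n := Nat.le_ceil _
  have hn2 : (n : ℝ) < 2 * e + 1 := Nat.ceil_lt_add_one (by linarith)
  have hn3 : (n : ℝ) ≤ 3 * e := by linarith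
  have hnpos : (0 : ℝ) < n := by linarith
  have hn0 : n ≠ 0 := by
    intro h; rw [h] at hnpos; simp at hnpos
  set l := Nat.log 25 (n ^ 3) with hl
  have hl1 : 25 ^ l ≤ n ^ 3 := Nat.pow_log_le_self 25 (pow_ne_zero 3 hn0)
  have hl2 : n ^ 3 < 25 ^ (l + 1) := Nat.lt_pow_succ_log_self (by norm_num) _
  set N : ℝ := (n : ℝ) ^ (3 / 2 : ℝ) with hN
  have hN0 : 0 < N := Real.rpow_pos_of_pos hnpos _
  have hNsq : N ^ 2 = (n : ℝ) ^ 3 := by
    rw [hN, ← Real.rpow_natCast, ← Real.rpow_mul hnpos.le, ← Real.rpow_natCast]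
    norm_num
  have hNe : N = n * Real.sqrt n := by
    rw [hN, show (3 / 2 : ℝ) = 1 + 1 / 2 by norm_num, Real.rpow_add hnpos, Real.rpow_one,
      Real.sqrt_eq_rpow]
  have e25 : ∀ k : ℕ, (25 : ℝ) ^ k = (5 ^ k) ^ 2 := by
    intro k; rw [← pow_mul, mul_comm, pow_mul]; norm_num
  have hl1r : (5 : ℝ) ^ l ≤ N := by
    have h : ((5 : ℝ) ^ l) ^ 2 ≤ N ^ 2 := by
      rw [hNsq, ← e25]; exact_mod_cast hl1
    exact le_of_pow_le_pow_left₀ two_ne_zero hN0.le h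
  have hl2r : N < (5 : ℝ) ^ (l + 1) := by
    have h : N ^ 2 < ((5 : ℝ) ^ (l + 1)) ^ 2 := by
      rw [hNsq, ← e25]; exact_mod_cast hl2
    exact lt_of_pow_lt_pow_left₀ 2 (by positivity) h
  have hn1' : (1 : ℝ) ≤ n := by linarith
  have hs1 : 1 ≤ Real.sqrt n := by
    rw [Real.one_le_sqrt]; exact hn1'
  have hLl : L ≤ l := by
    have h1 : (5 : ℝ) ^ (L + 1) < 5 ^ (l + 1) := by
      calc (5 : ℝ) ^ (L + 1) ≤ e := he
        _ ≤ n := by linarith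
        _ ≤ N := by rw [hNe]; nlinarith
        _ < _ := hl2r
    have := (pow_lt_pow_iff_right₀ (by norm_num : (1 : ℝ) < 5)).1 h1
    omega
  refine ⟨l, n, by omega, by linarith, ?_⟩
  set x : ℝ := (5 : ℝ) ^ ((2 + 1 / 20 : ℝ) * l) with hx
  have hx0 : 0 < x := Real.rpow_pos_of_pos (by norm_num) _
  have h5l : (5 : ℝ) ^ l = (5 : ℝ) ^ (l : ℝ) := (Real.rpow_natCast _ _).symm
  have h5l0 : (0 : ℝ) < 5 ^ l := by positivity
  -- upper bound
  have hup : 4 * (n + 1) * Real.sqrt n * (C * (5 : ℝ) ^ l + C * x / N) ≤ 80 * D * x := by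
    have u1 : 4 * ((n : ℝ) + 1) * Real.sqrt n ≤ 8 * N := by
      rw [hNe]; nlinarith
    have u2 : C * (5 : ℝ) ^ l + C * x / N ≤ D * 5 ^ l + D * x / N := by gcongr
    have u3 : (5 : ℝ) ^ l * 5 ^ l ≤ x := by
      rw [h5l, ← Real.rpow_add (by norm_num), hx]
      apply Real.rpow_le_rpow_of_exponent_le (by norm_num)
      have : (0 : ℝ) ≤ l := Nat.cast_nonneg _
      linarith
    have u4 : N ≤ 5 * 5 ^ l := by rw [pow_succ] at hl2r; linarith
    calc 4 * (n + 1) * Real.sqrt n * (C * (5 : ℝ) ^ l + C * x / N)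
        ≤ 4 * (n + 1) * Real.sqrt n * (D * 5 ^ l + D * x / N) := by gcongr
      _ ≤ 8 * N * (D * 5 ^ l + D * x / N) := by gcongr
      _ = 8 * D * (N * 5 ^ l) + 8 * D * x := by field_simp
      _ ≤ 8 * D * ((5 * 5 ^ l) * 5 ^ l) + 8 * D * x := by gcongr
      _ = 40 * D * (5 ^ l * 5 ^ l) + 8 * D * x := by ring
      _ ≤ 40 * D * x + 8 * D * x := by gcongr
      _ ≤ 80 * D * x := by nlinarith [mul_pos (lt_of_lt_of_le one_pos hD1) hx0]
  -- lower bound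
  have hlow : x * ((5 : ℝ) ^ (1 / 30 : ℝ)) ^ l / 2 ≤ (ZZ ^ l) ^ 2 * (e / 3) ^ (1 / 4 : ℝ) := by
    have w1 : (ZZ ^ l) ^ 2 = (5 : ℝ) ^ ((23 / 12 : ℝ) * l) := by
      rw [ZZ, ← pow_mul, ← Real.rpow_natCast, ← Real.rpow_mul (by norm_num)]
      congr 1; push_cast; ring
    set y : ℝ := (5 : ℝ) ^ ((l : ℝ) / 6) with hy
    have hy0 : 0 < y := Real.rpow_pos_of_pos (by norm_num) _
    have w2 : y ^ 4 ≤ n := by
      have : (y ^ 4) ^ 3 ≤ (n : ℝ) ^ 3 := by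
        rw [← hNsq]
        have : (y ^ 4) ^ 3 = ((5 : ℝ) ^ l) ^ 2 := by
          rw [← pow_mul, hy, ← Real.rpow_natCast, ← Real.rpow_mul (by norm_num), ← pow_mul,
            ← Real.rpow_natCast]
          congr 1; push_cast; ring
        rw [this]
        exact pow_le_pow_left₀ h5l0.le hl1r 2
      exact le_of_pow_le_pow_left₀ (by norm_num) hnpos.le this
    have w3 : y / 2 ≤ (e / 3) ^ (1 / 4 : ℝ) := by
      have w4 : (y / 2) ^ 4 ≤ e / 3 := by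
        rw [div_pow]; norm_num; linarith
      have w5 : ((y / 2) ^ 4) ^ (1 / 4 : ℝ) = y / 2 := by
        rw [← Real.rpow_natCast, ← Real.rpow_mul (by positivity)]
        norm_num
      rw [← w5]
      exact Real.rpow_le_rpow (by positivity) w4 (by norm_num)
    have w6 : x * ((5 : ℝ) ^ (1 / 30 : ℝ)) ^ l / 2 = (5 : ℝ) ^ ((23 / 12 : ℝ) * l) * (y / 2) := by
      rw [hx, hy, ← Real.rpow_natCast ((5 : ℝ) ^ (1 / 30 : ℝ)), ← Real.rpow_mul (by norm_num),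
        ← Real.rpow_add (by norm_num), ← mul_div_assoc, ← Real.rpow_add (by norm_num)]
      congr 2
      ring
    rw [w1, w6]
    gcongr
  have hL2 : 160 * D < ((5 : ℝ) ^ (1 / 30 : ℝ)) ^ l := by
    refine lt_of_lt_of_le hL ?_
    exact pow_le_pow_right₀ (Real.one_le_rpow (by norm_num) (by norm_num)) hLl
  have hfin : 80 * D * x < x * ((5 : ℝ) ^ (1 / 30 : ℝ)) ^ l / 2 := by
    have := mul_lt_mul_of_pos_left hL2 hx0
    linarith
  exact lt_of_le_of_lt hup (lt_of_lt_of_le hfin hlow)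

/-- The gap on the representations with a large Casimir constant. -/
theorem large
    (hA : ∃ C : ℝ, ∀ l n : ℕ, 1 ≤ n →
      ∃ (I : Type) (_ : Fintype I) (w : I → SO (Fin 3)),
        (∀ (A : Type) [Ring A] (ρ : SO (Fin 3) →* A),
          ∑ i, ρ (w i) = hecke (∑ j, ρ (lps j)) l) ∧
        ∑ i, ∑ j, ker4 n (w i * (w j)⁻¹) ≤
          C * (5 : ℝ) ^ l + C * (5 : ℝ) ^ ((2 + 1 / 20 : ℝ) * l) / (n : ℝ) ^ (3 / 2 : ℝ))
    (hB : ∀ (V : Type) [NormedAddCommGroup V] [InnerProductSpace ℝ V]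
      [FiniteDimensional ℝ V] (R : SORep (Fin 3) V) (c : ℝ) (_ : 0 < c)
      (_ : ∀ v, R.A 0 1 (R.A 0 1 v) + R.A 1 2 (R.A 1 2 v) + R.A 2 0 (R.A 2 0 v) = -c • v)
      (I : Type) [Fintype I] (w : I → SO (Fin 3)) (s : ℝ) (v : V) (_ : ‖v‖ = 1)
      (_ : ∑ i, R.ρ (w i) v = s • v) (n : ℕ) (_ : 2 * c ≤ n + 1) (_ : 1 ≤ n),
      s ^ 2 * (c / 3) ^ (1 / 4 : ℝ) ≤
        4 * (n + 1) * Real.sqrt n * ∑ i, ∑ j, ker4 n (w i * (w j)⁻¹)) :
    ∃ e0 : ℝ, 0 < e0 ∧ ∃ δ : ℝ, 0 < δ ∧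
    ∀ (V : Type) [NormedAddCommGroup V] [InnerProductSpace ℝ V] [FiniteDimensional ℝ V]
      (R : SORep (Fin 3) V) (e : ℝ)
      (_ : e0 ≤ e) (_ : ∀ v, Cas R v = e • v) (v : V) (_ : ‖v‖ = 1) (lam : ℝ)
      (_ : BB R v = lam • v), lam ≤ 6 - δ := by
  obtain ⟨C, hC⟩ := hA
  obtain ⟨e0, he0, hnum⟩ := numeric C
  refine ⟨e0, he0, 6 - (ZZ + 5 / ZZ), ZZ_gap, ?_⟩
  intro V _ _ _ R e hee hcas v hv lam hlam
  have he : 0 < e := lt_of_lt_of_le he0 hee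
  by_contra hcon
  push Not at hcon
  have h1 := ZZ_gt_one
  have h0 : 0 < ZZ := by linarith
  have hlamZ : ZZ + 5 / ZZ < lam := by linarith
  -- the roots
  have hdisc : 0 ≤ lam ^ 2 - 20 := by
    have h20 : (ZZ + 5 / ZZ) ^ 2 - 20 = (ZZ - 5 / ZZ) ^ 2 := by field_simp; ring
    have h21 : 0 < ZZ + 5 / ZZ := by positivity
    nlinarith [sq_nonneg (ZZ - 5 / ZZ)]
  have hlam0 : 0 < lam := lt_trans (by positivity) hlamZ
  set q := Real.sqrt (lam ^ 2 - 20) with hq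
  have hq0 : 0 ≤ q := Real.sqrt_nonneg _
  have hq2 : q ^ 2 = lam ^ 2 - 20 := Real.sq_sqrt hdisc
  set z := (lam + q) / 2 with hz
  set z' := (lam - q) / 2 with hz'
  have hzp : 0 < z := by positivity
  have hzz : z * z' = 5 := by rw [hz, hz']; nlinarith
  have hz'p : 0 < z' := by
    by_contra h
    push Not at h
    nlinarith
  have hsum : lam = z + z' := by rw [hz, hz']; ring
  have hzZ : ZZ < z := by
    by_contra h
    push Not at h
    have hz'Z : z' ≤ ZZ := le_trans (by rw [hz, hz']; linarith) h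
    have h3 : (ZZ - z) * (ZZ - z') = ZZ ^ 2 - lam * ZZ + 5 := by rw [hsum, ← hzz]; ring
    have h4 : 0 ≤ (ZZ - z) * (ZZ - z') := mul_nonneg (by linarith) (by linarith)
    have h5 : (ZZ + 5 / ZZ) * ZZ < lam * ZZ := mul_lt_mul_of_pos_right hlamZ h0
    have h6 : (ZZ + 5 / ZZ) * ZZ = ZZ ^ 2 + 5 := by field_simp
    linarith
  obtain ⟨l, n, hn, hn2, hlt⟩ := hnum e hee
  obtain ⟨I, _, w, hw, hpair⟩ := hC l n hn
  have hs : ∑ i, R.ρ (w i) v = (hecke lam l) • v := by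
    have h := hw (V →ₗ[ℝ] V) R.ρ
    have h2 := congrArg (fun f : V →ₗ[ℝ] V => f v) h
    simp only [LinearMap.sum_apply] at h2
    rw [h2]
    exact hecke_eig (BB R) v lam hlam l
  have hcas' : ∀ v, R.A 0 1 (R.A 0 1 v) + R.A 1 2 (R.A 1 2 v) + R.A 2 0 (R.A 2 0 v) = -e • v := by
    intro u
    have h := hcas u
    rw [Cas_apply] at h
    rw [neg_smul, ← h, neg_neg]
  have hmain := hB V R e he hcas' I w (hecke lam l) v hv hs n hn2 hn
  have hge : ZZ ^ l ≤ hecke lam l :=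
    (pow_le_pow_left₀ h0.le hzZ.le l).trans (hecke_ge_pow z z' lam hzp hz'p hzz hsum l)
  have hge2 : (ZZ ^ l) ^ 2 ≤ (hecke lam l) ^ 2 := pow_le_pow_left₀ (by positivity) hge 2
  have hpos : 0 ≤ (e / 3) ^ (1 / 4 : ℝ) := by positivity
  have hfac : 0 ≤ 4 * ((n : ℝ) + 1) * Real.sqrt n := by positivity
  have c1 : (ZZ ^ l) ^ 2 * (e / 3) ^ (1 / 4 : ℝ) ≤ hecke lam l ^ 2 * (e / 3) ^ (1 / 4 : ℝ) :=
    mul_le_mul_of_nonneg_right hge2 hpos
  have c2 := mul_le_mul_of_nonneg_left hpair hfac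
  linarith

end Pool.Agent.K3h54.Lps
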