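import Pool.Agent.K3h54.Lps.Count

/-!
# The arithmetic half of the spectral gap of the LPS rotations
-/

set_option autoImplicit false

open Finset

namespace Pool.Agent.K3h54.Lps

open Pool.Agent.K3h92

lemma sum_words {A : Type*} [Ring A] (ρ : SO (Fin 3) →* A) (l : ℕ) :
    ∑ w ∈ I l, ρ (w.map lps).prod = hecke (∑ j, ρ (lps j)) l := by
  have hr : ∀ s : Ltr, ρ (lps s) * ρ (lps (bar s)) = 1 := by
    intro s
    rw [← map_mul, lps_mul_bar, map_one]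
  rw [← S_eq_hecke (fun s => ρ (lps s)) hr l, S]
  apply sum_congr rfl
  intro w _
  rw [map_list_prod, List.map_map]
  rfl

/-- The linear functional on the group algebra given by `ker4 n`. -/
noncomputable def tau (n : ℕ) : MonoidAlgebra ℝ (SO (Fin 3)) →ₗ[ℝ] ℝ where
  toFun f := Finsupp.lsum ℝ (fun g : SO (Fin 3) => (ker4 n g) • (LinearMap.id : ℝ →ₗ[ℝ] ℝ)) f.coeff
  map_add' f g := by rw [MonoidAlgebra.coeff_add, map_add]
  map_smul' c f := by rw [MonoidAlgebra.coeff_smul, map_smul]; rfl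

lemma tau_of (n : ℕ) (g : SO (Fin 3)) : tau n (MonoidAlgebra.of ℝ (SO (Fin 3)) g) = ker4 n g := by
  change Finsupp.lsum ℝ (fun g : SO (Fin 3) => (ker4 n g) • (LinearMap.id : ℝ →ₗ[ℝ] ℝ))
    (Finsupp.single g 1) = _
  rw [Finsupp.lsum_single]
  simp

/-- The anti-homomorphism `g ↦ g⁻¹` to the group algebra. -/
noncomputable def rhoOp : SO (Fin 3) →* (MonoidAlgebra ℝ (SO (Fin 3)))ᵐᵒᵖ where
  toFun g := MulOpposite.op (MonoidAlgebra.of ℝ (SO (Fin 3)) g⁻¹)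
  map_one' := by rw [inv_one, map_one]; rfl
  map_mul' g h := by rw [mul_inv_rev, map_mul, MulOpposite.op_mul]

lemma sum_words_inv (l : ℕ) :
    ∑ w ∈ I l, MonoidAlgebra.of ℝ (SO (Fin 3)) ((w.map lps).prod)⁻¹ =
      hecke (∑ j, MonoidAlgebra.of ℝ (SO (Fin 3)) (lps j)) l := by
  have h := sum_words rhoOp l
  have hB : ∑ j, rhoOp (lps j) = MulOpposite.op (∑ j, MonoidAlgebra.of ℝ (SO (Fin 3)) (lps j)) := by
    rw [Finset.op_sum]
    let e : Ltr ≃ Ltr := ⟨bar, bar, bar_bar, bar_bar⟩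
    rw [← Equiv.sum_comp e]
    apply sum_congr rfl
    intro s _
    change MulOpposite.op (MonoidAlgebra.of ℝ (SO (Fin 3)) (lps (bar s))⁻¹) = _
    rw [lps_bar, inv_inv]
  rw [hB, hecke_op] at h
  apply MulOpposite.op_injective
  rw [← h, Finset.op_sum]
  rfl

theorem pair_sum (n l : ℕ) :
    ∑ v ∈ I l, ∑ w ∈ I l, ker4 n ((v.map lps).prod * ((w.map lps).prod)⁻¹) =
      ∑ i ∈ range (l + 1), (5 : ℝ) ^ i * ∑ w ∈ I (2 * (l - i)), ker4 n (w.map lps).prod := by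
  set B := ∑ j, MonoidAlgebra.of ℝ (SO (Fin 3)) (lps j) with hB
  have h1 : ∑ v ∈ I l, ∑ w ∈ I l, ker4 n ((v.map lps).prod * ((w.map lps).prod)⁻¹) =
      tau n (hecke B l * hecke B l) := by
    have g1 : hecke B l = ∑ w ∈ I l, MonoidAlgebra.of ℝ (SO (Fin 3)) (w.map lps).prod :=
      (sum_words (MonoidAlgebra.of ℝ (SO (Fin 3))) l).symm
    have g2 : hecke B l * hecke B l =
        (∑ w ∈ I l, MonoidAlgebra.of ℝ (SO (Fin 3)) (w.map lps).prod) *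
        (∑ w ∈ I l, MonoidAlgebra.of ℝ (SO (Fin 3)) ((w.map lps).prod)⁻¹) := by
      rw [sum_words_inv l, ← g1]
    rw [g2, sum_mul_sum, map_sum]
    apply sum_congr rfl
    intro v _
    rw [map_sum]
    apply sum_congr rfl
    intro w _
    rw [← map_mul, tau_of]
  rw [h1, hecke_mul B l l le_rfl, map_sum]
  apply sum_congr rfl
  intro i hi
  rw [mem_range] at hi
  have e : l + l - 2 * i = 2 * (l - i) := by omega
  have h5 : (5 : MonoidAlgebra ℝ (SO (Fin 3))) ^ i * hecke B (l + l - 2 * i) =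
      ((5 : ℝ) ^ i) • hecke B (l + l - 2 * i) := by
    have : ((5 : ℝ) ^ i) • hecke B (l + l - 2 * i) =
        algebraMap ℝ (MonoidAlgebra ℝ (SO (Fin 3))) ((5 : ℝ) ^ i) * hecke B (l + l - 2 * i) := by
      rw [Algebra.smul_def]
    rw [this, map_pow, map_ofNat]
  rw [h5, map_smul, smul_eq_mul, e, ← sum_words (MonoidAlgebra.of ℝ (SO (Fin 3))), map_sum]
  congr 1
  apply sum_congr rfl
  intro w _
  rw [tau_of]

/-- **The arithmetic half of the spectral gap of the LPS rotations.** -/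
theorem lps_arith : ∃ C : ℝ, ∀ l n : ℕ, 1 ≤ n →
    ∃ (I : Type) (_ : Fintype I) (w : I → SO (Fin 3)),
      (∀ (A : Type) [Ring A] (ρ : SO (Fin 3) →* A),
        ∑ i, ρ (w i) = hecke (∑ j, ρ (lps j)) l) ∧
      ∑ i, ∑ j, ker4 n (w i * (w j)⁻¹) ≤
        C * (5 : ℝ) ^ l + C * (5 : ℝ) ^ ((2 + 1 / 20 : ℝ) * l) / (n : ℝ) ^ (3 / 2 : ℝ) := by
  obtain ⟨C, hC, h⟩ := sum_ker4_le
  refine ⟨4 + 2 * C, ?_⟩
  intro l n hn
  refine ⟨I l, inferInstance, fun w => (w.1.map lps).prod, ?_, ?_⟩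
  · intro A _ ρ
    rw [← sum_words ρ l, sum_coe_sort (I l) (fun w => ρ (w.map lps).prod)]
  · have e : ∑ v : I l, ∑ w : I l, ker4 n ((v.1.map lps).prod * ((w.1.map lps).prod)⁻¹) =
        ∑ v ∈ I l, ∑ w ∈ I l, ker4 n ((v.map lps).prod * ((w.map lps).prod)⁻¹) := by
      rw [← sum_coe_sort (I l)]
      apply sum_congr rfl
      intro v _
      rw [← sum_coe_sort (I l)]
    rw [e, pair_sum]
    have hn0 : (0 : ℝ) < (n : ℝ) ^ (3 / 2 : ℝ) := by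
      apply Real.rpow_pos_of_pos; exact_mod_cast hn
    -- a term
    have ht : ∀ i ∈ range (l + 1), (5 : ℝ) ^ i * ∑ w ∈ I (2 * (l - i)), ker4 n (w.map lps).prod ≤
        2 * 5 ^ i + C * (5 : ℝ) ^ ((2 + 1 / 20 : ℝ) * l) / (n : ℝ) ^ (3 / 2 : ℝ) * (1 / 2) ^ i := by
      intro i hi
      rw [mem_range] at hi
      have h1 := h (l - i) n hn
      have h2 : (5 : ℝ) ^ i * (5 : ℝ) ^ ((2 + 1 / 20 : ℝ) * ((l - i : ℕ) : ℝ)) ≤
          (5 : ℝ) ^ ((2 + 1 / 20 : ℝ) * l) * (1 / 2) ^ i := by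
        have e3 : (5 : ℝ) ^ ((2 + 1 / 20 : ℝ) * l) =
            (5 : ℝ) ^ ((2 + 1 / 20 : ℝ) * ((l - i : ℕ) : ℝ)) * (5 ^ (2 + 1 / 20 : ℝ)) ^ i := by
          rw [← Real.rpow_natCast, ← Real.rpow_mul (by norm_num), ← Real.rpow_add (by norm_num),
            Nat.cast_sub (by omega)]
          congr 1; ring
        rw [e3, mul_assoc, mul_comm]
        apply mul_le_mul_of_nonneg_left _ (by positivity)
        rw [← mul_pow]
        apply pow_le_pow_left₀ (by norm_num)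
        have : (5 : ℝ) ^ (2 : ℝ) ≤ (5 : ℝ) ^ (2 + 1 / 20 : ℝ) :=
          Real.rpow_le_rpow_of_exponent_le (by norm_num) (by norm_num)
        have e4 : (5 : ℝ) ^ (2 : ℝ) = 25 := by norm_num
        linarith
      calc (5 : ℝ) ^ i * ∑ w ∈ I (2 * (l - i)), ker4 n (w.map lps).prod
          ≤ 5 ^ i * (2 + C * (5 : ℝ) ^ ((2 + 1 / 20 : ℝ) * ((l - i : ℕ) : ℝ)) /
              (n : ℝ) ^ (3 / 2 : ℝ)) := by gcongr
        _ = 2 * 5 ^ i + C * (5 ^ i * (5 : ℝ) ^ ((2 + 1 / 20 : ℝ) * ((l - i : ℕ) : ℝ))) /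
              (n : ℝ) ^ (3 / 2 : ℝ) := by ring
        _ ≤ 2 * 5 ^ i + C * ((5 : ℝ) ^ ((2 + 1 / 20 : ℝ) * l) * (1 / 2) ^ i) /
              (n : ℝ) ^ (3 / 2 : ℝ) := by gcongr
        _ = _ := by ring
    refine (sum_le_sum ht).trans ?_
    rw [sum_add_distrib, ← mul_sum, ← mul_sum]
    have g1 : ∑ i ∈ range (l + 1), (5 : ℝ) ^ i ≤ 2 * 5 ^ l := by
      rw [geom_sum_eq (by norm_num), div_le_iff₀ (by norm_num), pow_succ]
      have : (0 : ℝ) < 5 ^ l := by positivity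
      linarith
    have g2 : ∑ i ∈ range (l + 1), (1 / 2 : ℝ) ^ i ≤ 2 := by
      rw [geom_sum_eq (by norm_num), ← neg_div_neg_eq, div_le_iff₀ (by norm_num)]
      have : (0 : ℝ) < (1 / 2) ^ (l + 1) := by positivity
      linarith
    have g3 : 0 ≤ (5 : ℝ) ^ ((2 + 1 / 20 : ℝ) * l) / (n : ℝ) ^ (3 / 2 : ℝ) := by positivity
    have g4 : (0 : ℝ) < 5 ^ l := by positivity
    calc 2 * ∑ i ∈ range (l + 1), (5 : ℝ) ^ i +
          C * (5 : ℝ) ^ ((2 + 1 / 20 : ℝ) * l) / (n : ℝ) ^ (3 / 2 : ℝ) *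
            ∑ i ∈ range (l + 1), (1 / 2 : ℝ) ^ i
        ≤ 2 * (2 * 5 ^ l) + C * (5 : ℝ) ^ ((2 + 1 / 20 : ℝ) * l) / (n : ℝ) ^ (3 / 2 : ℝ) * 2 := by
          gcongr
      _ = 4 * 5 ^ l + 2 * C * ((5 : ℝ) ^ ((2 + 1 / 20 : ℝ) * l) / (n : ℝ) ^ (3 / 2 : ℝ)) := by ring
      _ ≤ (4 + 2 * C) * 5 ^ l +
          (4 + 2 * C) * ((5 : ℝ) ^ ((2 + 1 / 20 : ℝ) * l) / (n : ℝ) ^ (3 / 2 : ℝ)) := by
          nlinarith [mul_nonneg hC g4.le]
      _ = _ := by ring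

end Pool.Agent.K3h54.Lps
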