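import Pool.Agent.K3h54.Lps.Small
import Pool.Agent.K3h54.Lps.Large

/-!
# The Kazhdan constant of the LPS rotations from the two halves
-/

set_option autoImplicit false

open Finset Matrix

namespace Pool.Agent.K3h54.Lps

open Pool.Agent.K3h92

/-- A symmetric operator whose eigenvalues are at most `c`. -/
lemma inner_le_of_eigen {E : Type} [NormedAddCommGroup E] [InnerProductSpace ℝ E]
    [FiniteDimensional ℝ E] (T : E →ₗ[ℝ] E) (hT : T.IsSymmetric) (c : ℝ)
    (h : ∀ (lam : ℝ) (v : E), v ≠ 0 → T v = lam • v → lam ≤ c) (u : E) :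
    inner ℝ (T u) u ≤ c * ‖u‖ ^ 2 := by
  set b := hT.eigenvectorBasis rfl with hb
  have h1 : ∀ i, hT.eigenvalues rfl i ≤ c := by
    intro i
    have hv := hT.apply_eigenvectorBasis rfl i
    apply h _ (hT.eigenvectorBasis rfl i) _ (by simpa using hv)
    intro h0
    have := (hT.eigenvectorBasis rfl).orthonormal.1 i
    rw [h0] at this
    simp at this
  have e1 : inner ℝ (T u) u = ∑ i, hT.eigenvalues rfl i * (b.repr u i) ^ 2 := by
    rw [← b.repr.inner_map_map, PiLp.inner_apply]
    apply sum_congr rfl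
    intro i _
    have := hT.eigenvectorBasis_apply_self_apply rfl u i
    rw [hb, this]
    simp
    ring
  have e2 : ‖u‖ ^ 2 = ∑ i, (b.repr u i) ^ 2 := by
    rw [← b.repr.norm_map, EuclideanSpace.norm_eq, Real.sq_sqrt (by positivity)]
    simp
  rw [e1, e2, mul_sum]
  apply sum_le_sum
  intro i _
  exact mul_le_mul_of_nonneg_right (h1 i) (sq_nonneg _)

lemma exists_eigen {E : Type} [NormedAddCommGroup E] [InnerProductSpace ℝ E]
    [FiniteDimensional ℝ E] [Nontrivial E] (T : E →ₗ[ℝ] E) (hT : T.IsSymmetric) :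
    ∃ (c : ℝ) (v : E), v ≠ 0 ∧ T v = c • v := by
  have h := hT.hasEigenvalue_iSup_of_finiteDimensional
  obtain ⟨v, hv⟩ := h.exists_hasEigenvector
  exact ⟨_, v, hv.2, hv.apply_eq_smul⟩

theorem base3_of
    (hA : ∃ C : ℝ, ∀ l n : ℕ, 1 ≤ n →
      ∃ (I : Type) (_ : Fintype I) (w : I → SO (Fin 3)),
        (∀ (A : Type) [Ring A] (ρ : SO (Fin 3) →* A),
          ∑ i, ρ (w i) = hecke (∑ j, ρ (lps j)) l) ∧
        ∑ i, ∑ j, ker4 n (w i * (w j)⁻¹) ≤
          C * (5 : ℝ) ^ l + C * (5 : ℝ) ^ ((2 + 1 / 20 : ℝ) * l) / (n : ℝ) ^ (3 / 2 : ℝ))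
    (hB : ∀ (V : Type) [NormedAddCommGroup V] [InnerProductSpace ℝ V]
      [FiniteDimensional ℝ V] (R : SORep (Fin 3) V) (c : ℝ) (_ : 0 < c)
      (_ : ∀ v, R.A 0 1 (R.A 0 1 v) + R.A 1 2 (R.A 1 2 v) + R.A 2 0 (R.A 2 0 v) = -c • v)
      (I : Type) [Fintype I] (w : I → SO (Fin 3)) (s : ℝ) (v : V) (_ : ‖v‖ = 1)
      (_ : ∑ i, R.ρ (w i) v = s • v) (n : ℕ) (_ : 2 * c ≤ n + 1) (_ : 1 ≤ n),
      s ^ 2 * (c / 3) ^ (1 / 4 : ℝ) ≤
        4 * (n + 1) * Real.sqrt n * ∑ i, ∑ j, ker4 n (w i * (w j)⁻¹)) :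
    ∃ c : ℝ, 0 < c ∧ Kaz (Fin 3) lps c := by
  obtain ⟨e0, he0, δ1, hδ1, hlarge⟩ := large hA hB
  obtain ⟨δ2, hδ2, hsmall⟩ := small e0 he0
  set δ := min δ1 δ2 with hδ
  have hδ0 : 0 < δ := lt_min hδ1 hδ2
  refine ⟨2 * δ, by positivity, ?_⟩
  intro V _ _ _ R v hv
  rw [sum_disp]
  -- the bound for all the eigenvalues
  have key : ∀ (e : ℝ) (_ : 0 < e) (lam : ℝ) (u : V), u ≠ 0 → Cas R u = e • u → BB R u = lam • u →
      lam ≤ 6 - δ := by
    intro e he lam u hu hCu hBu
    set W : Submodule ℝ V := LinearMap.ker (Cas R - e • LinearMap.id) with hW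
    have hmem : ∀ x : V, x ∈ W ↔ Cas R x = e • x := by
      intro x
      rw [hW, LinearMap.mem_ker, LinearMap.sub_apply, sub_eq_zero]
      rfl
    have hWA : ∀ a b, ∀ x ∈ W, R.A a b x ∈ W := by
      intro a b x hx
      rw [hmem] at hx ⊢
      rw [Cas_A_apply, hx, map_smul]
    have hWρ : ∀ g, ∀ x ∈ W, R.ρ g x ∈ W := by
      intro g x hx
      rw [hmem] at hx ⊢
      rw [Cas_rho_apply, hx, map_smul]
    set R' := restrictRep R W hWA hWρ with hR'
    have hcas : ∀ x, Cas R' x = e • x := by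
      intro x
      apply Subtype.ext
      have h1 := (hmem x.1).1 x.2
      rw [Cas_apply] at h1 ⊢
      exact h1
    set x0 : W := ⟨u, (hmem u).2 hCu⟩ with hx0
    have hx0n : ‖x0‖ ≠ 0 := by
      rw [norm_ne_zero_iff]
      intro h
      apply hu
      have := congrArg Subtype.val h
      exact this
    set x1 : W := (‖x0‖⁻¹ : ℝ) • x0 with hx1
    have hx1n : ‖x1‖ = 1 := by
      rw [hx1, norm_smul, norm_inv, norm_norm, inv_mul_cancel₀ hx0n]
    have hB0 : BB R' x0 = lam • x0 := by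
      apply Subtype.ext
      rw [BB_apply] at hBu ⊢
      rw [Submodule.coe_sum]
      exact hBu
    have hB1 : BB R' x1 = lam • x1 := by
      rw [hx1, map_smul, hB0, smul_comm]
    rcases le_total e0 e with hle | hle
    · have := hlarge W R' e hle hcas x1 hx1n lam hB1
      have h2 : δ ≤ δ1 := min_le_left _ _
      linarith
    · have := hsmall W R' e he hle hcas x1 hx1n lam hB1
      have h2 : δ ≤ δ2 := min_le_right _ _
      linarith
  -- the complement of the invariant vectors
  set W0 : Submodule ℝ V := (R.toLieRep.InvAll)ᗮ with hW0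
  have hBW : ∀ x ∈ W0, BB R x ∈ W0 := by
    intro x hx
    rw [hW0, Submodule.mem_orthogonal] at hx ⊢
    intro y hy
    have h1 : inner ℝ y (BB R x) = inner ℝ (BB R y) x := (BB_symm R y x).symm
    rw [h1]
    apply hx
    rw [InvAll_iff] at hy ⊢
    rw [Cas_BB, hy, map_zero]
  have hCW : ∀ x ∈ W0, Cas R x ∈ W0 := by
    intro x hx
    rw [hW0, Submodule.mem_orthogonal] at hx ⊢
    intro y hy
    have h1 : inner ℝ y (Cas R x) = inner ℝ (Cas R y) x := (Cas_symm R y x).symm
    rw [h1]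
    rw [InvAll_iff] at hy
    rw [hy, inner_zero_left]
  have hmain : inner ℝ (BB R v) v ≤ (6 - δ) * ‖v‖ ^ 2 := by
    have h := inner_le_of_eigen ((BB R).restrict hBW) ((BB_symm R).restrict_invariant hBW) (6 - δ)
      ?_ ⟨v, hv⟩
    · exact h
    · intro lam x hx hBx
      -- the joint eigenspace
      set E : Submodule ℝ V := W0 ⊓ LinearMap.ker (BB R - lam • LinearMap.id) with hE
      have hmemE : ∀ y : V, y ∈ E ↔ y ∈ W0 ∧ BB R y = lam • y := by
        intro y
        rw [hE, Submodule.mem_inf, LinearMap.mem_ker, LinearMap.sub_apply, sub_eq_zero]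
        rfl
      have hCE : ∀ y ∈ E, Cas R y ∈ E := by
        intro y hy
        rw [hmemE] at hy ⊢
        refine ⟨hCW y hy.1, ?_⟩
        rw [← Cas_BB, hy.2, map_smul]
      have hxE : (x : V) ∈ E := by
        rw [hmemE]
        exact ⟨x.2, congrArg Subtype.val hBx⟩
      have : Nontrivial E := by
        refine ⟨⟨x, hxE⟩, 0, ?_⟩
        intro h
        apply hx
        apply Subtype.ext
        exact congrArg (fun y : E => (y : V)) h
      obtain ⟨e, y, hy0, hye⟩ := exists_eigen ((Cas R).restrict hCE)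
        ((Cas_symm R).restrict_invariant hCE)
      have hyE := (hmemE y.1).1 y.2
      have hye' : Cas R (y : V) = e • (y : V) := congrArg Subtype.val hye
      have hy0' : (y : V) ≠ 0 := by
        intro h; exact hy0 (Subtype.ext h)
      have hyn : 0 < ‖(y : V)‖ ^ 2 := by
        have := norm_pos_iff.2 hy0'
        positivity
      have hin : inner ℝ (Cas R (y : V)) (y : V) = e * ‖(y : V)‖ ^ 2 := by
        rw [hye', inner_smul_left, real_inner_self_eq_norm_sq]; rfl
      have he : 0 < e := by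
        have h1 : 0 ≤ e * ‖(y : V)‖ ^ 2 := by
          rw [← hin, inner_Cas_self]; positivity
        have h2 : 0 ≤ e := by
          by_contra hneg
          push Not at hneg
          nlinarith
        rcases h2.lt_or_eq with h3 | h3
        · exact h3
        · exfalso
          rw [← h3, zero_mul] at hin
          have h4 := mem_InvAll_of_Cas R (y : V) hin
          have h5 := hyE.1
          rw [hW0, Submodule.mem_orthogonal] at h5
          have h6 := h5 _ h4
          rw [real_inner_self_eq_norm_sq] at h6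
          linarith
      exact key e he lam y hy0' hye' hyE.2
  linarith

end Pool.Agent.K3h54.Lps
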