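import Pool.Agent.K3h54.Lps.Words

/-!
# The integer quaternions of the LPS rotations
-/

set_option autoImplicit false

open Finset Quaternion Matrix

namespace Pool.Agent.K3h54.Lps

open Pool.Agent.K3h92

/-- The rotation `x ↦ q x q̄` (not normalised) of an integer quaternion. -/
def Rm (q : ℍ[ℤ]) : Matrix (Fin 3) (Fin 3) ℝ :=
  !![(q.re : ℝ) ^ 2 + (q.imI : ℝ) ^ 2 - (q.imJ : ℝ) ^ 2 - (q.imK : ℝ) ^ 2,
      2 * ((q.imI : ℝ) * q.imJ - q.re * q.imK), 2 * ((q.imI : ℝ) * q.imK + q.re * q.imJ);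
    2 * ((q.imI : ℝ) * q.imJ + q.re * q.imK),
      (q.re : ℝ) ^ 2 - (q.imI : ℝ) ^ 2 + (q.imJ : ℝ) ^ 2 - (q.imK : ℝ) ^ 2,
      2 * ((q.imJ : ℝ) * q.imK - q.re * q.imI);
    2 * ((q.imI : ℝ) * q.imK - q.re * q.imJ), 2 * ((q.imJ : ℝ) * q.imK + q.re * q.imI),
      (q.re : ℝ) ^ 2 - (q.imI : ℝ) ^ 2 - (q.imJ : ℝ) ^ 2 + (q.imK : ℝ) ^ 2]

lemma Rm_one : Rm 1 = 1 := by
  ext i j
  fin_cases i <;> fin_cases j <;> simp [Rm]

lemma Rm_mul (p q : ℍ[ℤ]) : Rm (p * q) = Rm p * Rm q := by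
  ext i j
  fin_cases i <;> fin_cases j <;>
    (simp [Rm, Matrix.mul_apply, Fin.sum_univ_three]; ring)

lemma trace_Rm (q : ℍ[ℤ]) : (Rm q).trace = 4 * (q.re : ℝ) ^ 2 - ((Quaternion.normSq q : ℤ) : ℝ) := by
  rw [Quaternion.normSq_def']
  simp only [Rm, Matrix.trace, Fin.sum_univ_three, Matrix.diag]
  push_cast
  simp
  ring

/-- The quaternion `1 ± 2i`, `1 ± 2j`, `1 ± 2k` of a letter. -/
def lq (s : Ltr) : ℍ[ℤ] :=
  ⟨1, if s.1 = 1 then (if s.2 then -2 else 2) else 0, if s.1 = 2 then (if s.2 then -2 else 2) else 0,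
    if s.1 = 0 then (if s.2 then -2 else 2) else 0⟩

lemma lq_re (s : Ltr) : (lq s).re = 1 := rfl
lemma lq_imI (s : Ltr) : (lq s).imI = if s.1 = 1 then (if s.2 then -2 else 2) else 0 := rfl
lemma lq_imJ (s : Ltr) : (lq s).imJ = if s.1 = 2 then (if s.2 then -2 else 2) else 0 := rfl
lemma lq_imK (s : Ltr) : (lq s).imK = if s.1 = 0 then (if s.2 then -2 else 2) else 0 := rfl

lemma cos_lpsAngle : Real.cos lpsAngle = -3 / 5 :=
  Real.cos_arccos (by norm_num) (by norm_num)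

lemma sin_lpsAngle : Real.sin lpsAngle = 4 / 5 := by
  rw [lpsAngle, Real.sin_arccos, show (1 : ℝ) - (-3 / 5) ^ 2 = (4 / 5) ^ 2 by norm_num]
  exact Real.sqrt_sq (by norm_num)

lemma lps_coe (s : Ltr) : ((lps s : SO (Fin 3)) : Matrix (Fin 3) (Fin 3) ℝ) =
    (1 / 5 : ℝ) • Rm (lq s) := by
  have e : ((lps s : SO (Fin 3)) : Matrix (Fin 3) (Fin 3) ℝ) =
    rotMat (plane s.1).1 (plane s.1).2 (if s.2 then lpsAngle else -lpsAngle) := rfl
  rw [e]
  rcases s with ⟨a, b⟩
  have h1 := cos_lpsAngle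
  have h2 := sin_lpsAngle
  fin_cases a <;> cases b <;>
  · ext i j
    fin_cases i <;> fin_cases j <;>
      (simp [Rm, lq, rotMat, plane, Matrix.single, h1, h2]; try norm_num)

lemma coe_prod_lps (w : List Ltr) :
    (((w.map lps).prod : SO (Fin 3)) : Matrix (Fin 3) (Fin 3) ℝ) =
      (1 / 5 : ℝ) ^ w.length • Rm (w.map lq).prod := by
  induction w with
  | nil => simp [Rm_one]
  | cons s w ih =>
    rw [List.map_cons, List.prod_cons, Submonoid.coe_mul, ih, lps_coe, List.map_cons,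
      List.prod_cons, Rm_mul, List.length_cons, pow_succ', smul_mul_smul_comm]

lemma normSq_lq (s : Ltr) : Quaternion.normSq (lq s) = 5 := by
  rcases s with ⟨a, b⟩
  rw [Quaternion.normSq_def']
  fin_cases a <;> cases b <;> simp [lq]

lemma normSq_prod (w : List Ltr) : Quaternion.normSq (w.map lq).prod = 5 ^ w.length := by
  induction w with
  | nil => simp
  | cons s w ih =>
    rw [List.map_cons, List.prod_cons, map_mul, ih, normSq_lq, List.length_cons, pow_succ']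

lemma ker4_prod (n : ℕ) (w : List Ltr) :
    ker4 n (w.map lps).prod = (((w.map lq).prod.re : ℝ) ^ 2 / 5 ^ w.length) ^ n := by
  rw [ker4, coe_prod_lps, Matrix.trace_smul, trace_Rm, normSq_prod]
  congr 1
  push_cast
  rw [smul_eq_mul]
  have : (5 : ℝ) ^ w.length ≠ 0 := by positivity
  rw [one_div, inv_pow]
  field_simp
  ring

lemma lps_mul_bar (s : Ltr) : lps s * lps (bar s) = 1 := by
  apply Subtype.ext
  rw [Submonoid.coe_mul, lps_coe, lps_coe, smul_mul_smul_comm, ← Rm_mul]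
  rcases s with ⟨a, b⟩
  fin_cases a <;> cases b <;>
  · ext i j
    fin_cases i <;> fin_cases j <;>
      (simp [Rm, lq_re, lq_imI, lq_imJ, lq_imK, bar]; try norm_num)

lemma lps_bar (s : Ltr) : lps (bar s) = (lps s)⁻¹ :=
  eq_inv_of_mul_eq_one_right (lps_mul_bar s)

/-! ### Primitivity -/

lemma lq_bar_mul (s : Ltr) (x : ℍ[ℤ]) : lq (bar s) * (lq s * x) = (5 : ℤ) • x := by
  rcases s with ⟨a, b⟩
  fin_cases a <;> cases b <;>
  · ext <;> (simp [lq_re, lq_imI, lq_imJ, lq_imK, bar, -zsmul_eq_mul]; try ring)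

lemma lq_three (s t : Ltr) (h : s ≠ bar t) : ∃ c : ℤ, (c = -6 ∨ c = 2) ∧
    lq s * (lq t * lq s) = c • lq s - (5 : ℤ) • lq (bar t) := by
  rcases s with ⟨a, b⟩
  rcases t with ⟨a', b'⟩
  by_cases e : (a, b) = (a', b')
  · refine ⟨-6, Or.inl rfl, ?_⟩
    obtain ⟨rfl, rfl⟩ := Prod.mk.inj e
    fin_cases a <;> cases b <;> · ext <;> simp [lq_re, lq_imI, lq_imJ, lq_imK, bar, -zsmul_eq_mul]
  · refine ⟨2, Or.inr rfl, ?_⟩
    fin_cases a <;> fin_cases a' <;> cases b <;> cases b' <;>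
      first
      | (exfalso; exact e rfl)
      | (exfalso; exact h rfl)
      | (ext <;> simp [lq_re, lq_imI, lq_imJ, lq_imK, bar, -zsmul_eq_mul])

/-- A nonempty reduced product is not divisible by `5`. -/
theorem not_five_dvd : ∀ (k : ℕ) (w : List Ltr), w ∈ W (k + 1) →
    ∀ y : ℍ[ℤ], (w.map lq).prod ≠ (5 : ℤ) • y
  | 0, w, hw, y => by
    rw [mem_W_succ] at hw
    obtain ⟨s, v, hv, -, rfl⟩ := hw
    rw [mem_W_zero] at hv
    subst hv
    intro h
    have h1 := congrArg (fun q : ℍ[ℤ] => q.re) h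
    simp [lq_re, -zsmul_eq_mul] at h1
    omega
  | k + 1, w, hw, y => by
    rw [mem_W_succ] at hw
    obtain ⟨t, v, hv, htv, rfl⟩ := hw
    intro h
    have ih := not_five_dvd k v hv
    rw [mem_W_succ] at hv
    obtain ⟨s, x, hx, hsx, rfl⟩ := hv
    rw [ok_cons] at htv
    obtain ⟨c, hc, e⟩ := lq_three s t htv
    simp only [List.map_cons, List.prod_cons] at h ih
    set X := (x.map lq).prod with hX
    have h1 : c • (lq s * X) = (5 : ℤ) • (lq (bar t) * X + lq s * y) := by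
      have h2 : lq s * (lq t * (lq s * X)) = lq s * ((5 : ℤ) • y) := by rw [h]
      rw [← mul_assoc (lq t), ← mul_assoc (lq s), e, sub_mul, smul_mul_assoc, sub_eq_iff_eq_add] at h2
      rw [h2, smul_add, add_comm, smul_mul_assoc, mul_smul_comm]
    rcases hc with rfl | rfl
    · apply ih (-(lq (bar t) * X + lq s * y) - lq s * X)
      rw [smul_sub, smul_neg, ← h1]
      module
    · apply ih ((lq s * X) - (2 : ℤ) • (lq (bar t) * X + lq s * y))
      rw [smul_sub, smul_comm, ← h1]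
      module

lemma mul_left_cancel_lq (s : Ltr) {x y : ℍ[ℤ]} (h : lq s * x = lq s * y) : x = y := by
  have h1 : lq (bar s) * (lq s * x) = lq (bar s) * (lq s * y) := by rw [h]
  rw [lq_bar_mul, lq_bar_mul] at h1
  ext
  · have := congrArg (fun q : ℍ[ℤ] => q.re) h1; simpa [-zsmul_eq_mul] using this
  · have := congrArg (fun q : ℍ[ℤ] => q.imI) h1; simpa [-zsmul_eq_mul] using this
  · have := congrArg (fun q : ℍ[ℤ] => q.imJ) h1; simpa [-zsmul_eq_mul] using this
  · have := congrArg (fun q : ℍ[ℤ] => q.imK) h1; simpa [-zsmul_eq_mul] using this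

theorem prod_inj : ∀ (k : ℕ) (v w : List Ltr), v ∈ W k → w ∈ W k →
    (v.map lq).prod = (w.map lq).prod → v = w
  | 0, v, w, hv, hw, _ => by
    rw [mem_W_zero] at hv hw; rw [hv, hw]
  | k + 1, v, w, hv, hw, h => by
    have hv' := hv
    rw [mem_W_succ] at hv hw
    obtain ⟨s, x, hx, hsx, rfl⟩ := hv
    obtain ⟨t, y, hy, hty, rfl⟩ := hw
    simp only [List.map_cons, List.prod_cons] at h
    by_cases e : s = t
    · subst e
      rw [prod_inj k x y hx hy (mul_left_cancel_lq s h)]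
    · exfalso
      -- the word `bar t, s, x` is reduced
      have hred : bar t :: s :: x ∈ W (k + 2) := by
        rw [cons_mem_W]
        exact ⟨hv', by rw [ok_cons, bar_bar]; exact e⟩
      apply not_five_dvd (k + 1) _ hred (y.map lq).prod
      simp only [List.map_cons, List.prod_cons]
      rw [h, lq_bar_mul]

/-- The quaternion of norm `5 ^ l` of a word of `I l`. -/
def Phi (l : ℕ) (w : List Ltr) : ℍ[ℤ] := ((5 : ℤ) ^ ((l - w.length) / 2)) • (w.map lq).prod

lemma five_pow_cancel (j : ℕ) {x y : ℍ[ℤ]} (h : ((5 : ℤ) ^ j) • x = ((5 : ℤ) ^ j) • y) : x = y := by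
  have h5 : (5 : ℤ) ^ j ≠ 0 := by positivity
  ext
  · have := congrArg (fun q : ℍ[ℤ] => q.re) h; simpa [-zsmul_eq_mul] using this
  · have := congrArg (fun q : ℍ[ℤ] => q.imI) h; simpa [-zsmul_eq_mul] using this
  · have := congrArg (fun q : ℍ[ℤ] => q.imJ) h; simpa [-zsmul_eq_mul] using this
  · have := congrArg (fun q : ℍ[ℤ] => q.imK) h; simpa [-zsmul_eq_mul] using this

lemma Phi_inj_aux (l : ℕ) (v w : List Ltr) (hv : v ∈ I l) (hw : w ∈ I l)
    (h : Phi l v = Phi l w) (hle : v.length ≤ w.length) : v = w := by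
  obtain ⟨i, hi, hvi⟩ := length_of_mem_I l v hv
  obtain ⟨j, hj, hwj⟩ := length_of_mem_I l w hw
  have ei : (l - v.length) / 2 = i := by omega
  have ej : (l - w.length) / 2 = j := by omega
  rw [Phi, Phi, ei, ej] at h
  have hij : j ≤ i := by omega
  obtain ⟨d, rfl⟩ : ∃ d, i = j + d := ⟨i - j, by omega⟩
  rw [pow_add, mul_smul] at h
  have h2 := five_pow_cancel j h
  rcases d with _ | d
  · have hl : v.length = w.length := by omega
    rw [pow_zero, one_smul] at h2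
    rw [hl] at hvi
    exact prod_inj _ v w hvi hwj h2
  · exfalso
    obtain ⟨k, hk⟩ : ∃ k, w.length = k + 1 := ⟨w.length - 1, by omega⟩
    rw [hk] at hwj
    apply not_five_dvd k w hwj (((5 : ℤ) ^ d) • (v.map lq).prod)
    rw [← h2, pow_succ', mul_smul]

lemma Phi_inj (l : ℕ) (v w : List Ltr) (hv : v ∈ I l) (hw : w ∈ I l)
    (h : Phi l v = Phi l w) : v = w := by
  rcases le_total v.length w.length with hle | hle
  · exact Phi_inj_aux l v w hv hw h hle
  · exact (Phi_inj_aux l w v hw hv h.symm hle).symm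

lemma normSq_smul (c : ℤ) (x : ℍ[ℤ]) : Quaternion.normSq (c • x) = c ^ 2 * Quaternion.normSq x := by
  rw [Quaternion.normSq_def', Quaternion.normSq_def']
  simp [-zsmul_eq_mul]
  ring

lemma normSq_Phi (l : ℕ) (w : List Ltr) (hw : w ∈ I l) : Quaternion.normSq (Phi l w) = 5 ^ l := by
  obtain ⟨i, hi, -⟩ := length_of_mem_I l w hw
  have ei : (l - w.length) / 2 = i := by omega
  rw [Phi, ei, normSq_smul, normSq_prod, ← pow_mul, ← pow_add]
  congr 1
  omega

lemma ker4_Phi (n l : ℕ) (w : List Ltr) (hw : w ∈ I l) :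
    ker4 n (w.map lps).prod = (((Phi l w).re : ℝ) ^ 2 / 5 ^ l) ^ n := by
  obtain ⟨i, hi, -⟩ := length_of_mem_I l w hw
  have ei : (l - w.length) / 2 = i := by omega
  have e2 : (Phi l w).re = 5 ^ i * (w.map lq).prod.re := by
    rw [Phi, ei]; simp [-zsmul_eq_mul]
  rw [ker4_prod, e2]
  congr 1
  have e3 : (5 : ℝ) ^ l = 5 ^ w.length * (5 ^ i) ^ 2 := by
    rw [← hi, pow_add, pow_mul, ← pow_mul, ← pow_mul, mul_comm 2 i]
  rw [e3]
  push_cast
  have : (5 : ℝ) ^ w.length ≠ 0 := by positivity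
  have : (5 : ℝ) ^ i ≠ 0 := by positivity
  field_simp

end Pool.Agent.K3h54.Lps
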