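import Pool.Agent.K3h54.Lps.Quat

/-!
# Restriction of representations; the Casimir operator of `SO(3)`
-/

set_option autoImplicit false

open Finset Matrix

namespace Pool.Agent.K3h54.Lps

open Pool.Agent.K3h92

section restrict

variable {ι : Type} [Fintype ι] [DecidableEq ι] {V : Type} [NormedAddCommGroup V]
  [InnerProductSpace ℝ V]

/-- Restriction of a representation to an invariant subspace. -/
noncomputable def restrictRep [FiniteDimensional ℝ V] (R : SORep ι V) (W : Submodule ℝ V)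
    (hA : ∀ a b, ∀ v ∈ W, R.A a b v ∈ W) (hρ : ∀ g, ∀ v ∈ W, R.ρ g v ∈ W) : SORep ι W where
  A a b := (R.A a b).restrict (hA a b)
  anti a b := by
    ext v
    have := R.anti a b
    simp [this]
  skew a b u v := R.skew a b u v
  br a b c d := by
    ext v
    have h := congrArg (fun f : V →ₗ[ℝ] V => f (v : V)) (R.br a b c d)
    simp only [LinearMap.sub_apply, Module.End.mul_apply, LinearMap.add_apply] at h
    have e : ∀ (P : Prop) [Decidable P] (c d : ι),
        (((if P then (R.A c d).restrict (hA c d) else 0 : W →ₗ[ℝ] W) v : W) : V) =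
          (if P then R.A c d else 0 : V →ₗ[ℝ] V) (v : V) := by
      intro P _ c d
      by_cases hP : P <;> simp [hP]
    simp only [LinearMap.sub_apply, Module.End.mul_apply, LinearMap.add_apply,
      Submodule.coe_add, Submodule.coe_sub, e]
    rw [← h]
    rfl
  ρ :=
    { toFun := fun g => (R.ρ g).restrict (hρ g)
      map_one' := by ext v; simp
      map_mul' := fun g h => by ext v; simp }
  norm_ρ g v := R.norm_ρ g v
  Ad g a b := by
    ext v
    have h := congrArg (fun f : V →ₗ[ℝ] V => f (v : V)) (R.Ad g a b)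
    simp only [Module.End.mul_apply, LinearMap.sum_apply, LinearMap.smul_apply] at h
    simp only [Module.End.mul_apply, LinearMap.sum_apply, LinearMap.smul_apply,
      Submodule.coe_sum, Submodule.coe_smul]
    exact h
  deriv a b hab v := by
    have h := R.deriv a b hab v
    have h1 : HasDerivAt (fun t : ℝ => W.orthogonalProjectionOnto (R.ρ (rot a b hab t) v))
        (W.orthogonalProjectionOnto (R.A a b v)) 0 :=
      (W.orthogonalProjectionOnto.hasFDerivAt).comp_hasDerivAt 0 h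
    have e : ∀ (x : V) (hx : x ∈ W), W.orthogonalProjectionOnto x = ⟨x, hx⟩ := by
      intro x hx
      exact Submodule.orthogonalProjectionOnto_mem_subspace_eq_self (K := W) ⟨x, hx⟩
    have h2 : (fun t : ℝ => W.orthogonalProjectionOnto (R.ρ (rot a b hab t) v)) =
        fun t : ℝ => ((R.ρ (rot a b hab t)).restrict (hρ _)) v := by
      funext t
      rw [e _ (hρ _ _ v.2)]; rfl
    rw [h2, e _ (hA _ _ _ v.2)] at h1
    exact h1
  cont v := by
    apply Continuous.subtype_mk (R.cont (v : V))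

end restrict

section cas

variable {ι : Type} [Fintype ι] [DecidableEq ι] {V : Type} [NormedAddCommGroup V]
  [InnerProductSpace ℝ V]

lemma sum_coe_mul (g : SO ι) (c e : ι) :
    ∑ a, (g : Matrix ι ι ℝ) c a * (g : Matrix ι ι ℝ) e a = if c = e then 1 else 0 := by
  have h := mul_eq_one_comm.1 ((SO.mem_iff _).1 g.2).1
  have h1 := congrArg (fun M : Matrix ι ι ℝ => M c e) h
  simp only [Matrix.mul_apply, Matrix.transpose_apply, Matrix.one_apply] at h1
  exact h1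

lemma swap3 {M : Type*} [AddCommMonoid M] (H : ι → ι → ι → M) :
    ∑ a, ∑ b, ∑ c, H a b c = ∑ c, ∑ a, ∑ b, H a b c := by
  rw [sum_congr rfl (fun a _ => sum_comm)]
  rw [sum_comm]

/-- The sum of the squares of the generators commutes with the group. -/
lemma cas_comm (R : SORep ι V) (g : SO ι) :
    R.ρ g * (∑ a, ∑ b, R.A a b * R.A a b) = (∑ a, ∑ b, R.A a b * R.A a b) * R.ρ g := by
  set G : Matrix ι ι ℝ := (g : Matrix ι ι ℝ) with hG
  have h1 : ∀ a b, R.ρ g * (R.A a b * R.A a b) =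
      (∑ c, ∑ d, (G c a * G d b) • R.A c d) * ((∑ e, ∑ f, (G e a * G f b) • R.A e f) * R.ρ g) := by
    intro a b
    rw [← mul_assoc, R.Ad, mul_assoc, R.Ad]
  simp_rw [mul_sum, h1]
  simp_rw [← mul_assoc, ← sum_mul]
  congr 1
  have h2 : ∀ a b, (∑ c, ∑ d, (G c a * G d b) • R.A c d) * (∑ e, ∑ f, (G e a * G f b) • R.A e f) =
      ∑ c, ∑ d, ∑ e, ∑ f, ((G c a * G e a) * (G d b * G f b)) • (R.A c d * R.A e f) := by
    intro a b
    simp only [sum_mul]
    apply sum_congr rfl; intro c _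
    apply sum_congr rfl; intro d _
    simp only [mul_sum]
    apply sum_congr rfl; intro e _
    apply sum_congr rfl; intro f _
    rw [smul_mul_smul_comm]
    congr 1
    ring
  simp_rw [h2]
  have h3 : ∑ a, ∑ b, ∑ c, ∑ d, ∑ e, ∑ f, ((G c a * G e a) * (G d b * G f b)) • (R.A c d * R.A e f) =
      ∑ c, ∑ d, ∑ e, ∑ f, ((∑ a, G c a * G e a) * (∑ b, G d b * G f b)) • (R.A c d * R.A e f) := by
    rw [swap3]; apply sum_congr rfl; intro c _
    rw [swap3]; apply sum_congr rfl; intro d _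
    rw [swap3]; apply sum_congr rfl; intro e _
    rw [swap3]; apply sum_congr rfl; intro f _
    simp_rw [sum_mul_sum, sum_smul]
  rw [h3]
  apply sum_congr rfl; intro c _
  apply sum_congr rfl; intro d _
  rw [sum_eq_single c, sum_eq_single d]
  · rw [sum_coe_mul, sum_coe_mul]; simp
  · intro f _ hf
    rw [sum_coe_mul g d f, if_neg (Ne.symm hf)]; simp
  · intro h; exact absurd (mem_univ _) h
  · intro e _ he
    apply sum_eq_zero; intro f _
    rw [sum_coe_mul g c e, if_neg (Ne.symm he)]; simp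
  · intro h; exact absurd (mem_univ _) h

end cas

section three

variable {V : Type} [NormedAddCommGroup V] [InnerProductSpace ℝ V] (R : SORep (Fin 3) V)

/-- The Casimir operator. -/
def Cas : V →ₗ[ℝ] V :=
  -(R.A 0 1 * R.A 0 1 + R.A 1 2 * R.A 1 2 + R.A 2 0 * R.A 2 0)

lemma Cas_apply (v : V) : Cas R v =
    -(R.A 0 1 (R.A 0 1 v) + R.A 1 2 (R.A 1 2 v) + R.A 2 0 (R.A 2 0 v)) := by
  simp [Cas]

lemma A_self (a : Fin 3) : R.A a a = 0 := by
  have h := R.anti a a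
  have h2 : (2 : ℝ) • R.A a a = 0 := by
    rw [two_smul]; nth_rewrite 1 [h]; simp
  exact (smul_eq_zero.1 h2).resolve_left (by norm_num)

lemma sum_sq : ∑ a, ∑ b, R.A a b * R.A a b = -((2 : ℝ) • Cas R) := by
  rw [Fin.sum_univ_three, Fin.sum_univ_three, Fin.sum_univ_three, Fin.sum_univ_three,
    A_self, A_self, A_self, R.anti 0 1, R.anti 1 2, R.anti 2 0, Cas]
  simp only [neg_mul_neg, mul_zero, zero_mul]
  module

lemma Cas_rho (g : SO (Fin 3)) : R.ρ g * Cas R = Cas R * R.ρ g := by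
  have h := cas_comm R g
  rw [sum_sq] at h
  have h2 : (2 : ℝ) • (R.ρ g * Cas R) = (2 : ℝ) • (Cas R * R.ρ g) := by
    rw [← mul_smul_comm, ← smul_mul_assoc]
    simpa using h
  exact smul_right_injective _ (two_ne_zero) h2

lemma Cas_rho_apply (g : SO (Fin 3)) (v : V) : Cas R (R.ρ g v) = R.ρ g (Cas R v) := by
  have h := congrArg (fun f : V →ₗ[ℝ] V => f v) (Cas_rho R g)
  exact h.symm

lemma br_xy : R.A 0 1 * R.A 1 2 - R.A 1 2 * R.A 0 1 + R.A 2 0 = 0 := by
  rw [R.br, R.anti 2 0]; simp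

lemma br_yz : R.A 1 2 * R.A 2 0 - R.A 2 0 * R.A 1 2 + R.A 0 1 = 0 := by
  rw [R.br, R.anti 0 1]; simp

lemma br_zx : R.A 2 0 * R.A 0 1 - R.A 0 1 * R.A 2 0 + R.A 1 2 = 0 := by
  rw [R.br, R.anti 1 2]; simp

lemma Cas_x : R.A 0 1 * Cas R = Cas R * R.A 0 1 := by
  have h1 := br_xy R
  have h3 := br_zx R
  have : R.A 0 1 * Cas R - Cas R * R.A 0 1 =
      -((R.A 0 1 * R.A 1 2 - R.A 1 2 * R.A 0 1 + R.A 2 0) * R.A 1 2 +
        R.A 1 2 * (R.A 0 1 * R.A 1 2 - R.A 1 2 * R.A 0 1 + R.A 2 0)) +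
      ((R.A 2 0 * R.A 0 1 - R.A 0 1 * R.A 2 0 + R.A 1 2) * R.A 2 0 +
        R.A 2 0 * (R.A 2 0 * R.A 0 1 - R.A 0 1 * R.A 2 0 + R.A 1 2)) := by
    rw [Cas]; noncomm_ring
  rw [h1, h3] at this
  simpa [sub_eq_zero] using this

lemma Cas_y : R.A 1 2 * Cas R = Cas R * R.A 1 2 := by
  have h1 := br_yz R
  have h3 := br_xy R
  have : R.A 1 2 * Cas R - Cas R * R.A 1 2 =
      -((R.A 1 2 * R.A 2 0 - R.A 2 0 * R.A 1 2 + R.A 0 1) * R.A 2 0 +
        R.A 2 0 * (R.A 1 2 * R.A 2 0 - R.A 2 0 * R.A 1 2 + R.A 0 1)) +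
      ((R.A 0 1 * R.A 1 2 - R.A 1 2 * R.A 0 1 + R.A 2 0) * R.A 0 1 +
        R.A 0 1 * (R.A 0 1 * R.A 1 2 - R.A 1 2 * R.A 0 1 + R.A 2 0)) := by
    rw [Cas]; noncomm_ring
  rw [h1, h3] at this
  simpa [sub_eq_zero] using this

lemma Cas_z : R.A 2 0 * Cas R = Cas R * R.A 2 0 := by
  have h1 := br_zx R
  have h3 := br_yz R
  have : R.A 2 0 * Cas R - Cas R * R.A 2 0 =
      -((R.A 2 0 * R.A 0 1 - R.A 0 1 * R.A 2 0 + R.A 1 2) * R.A 0 1 +
        R.A 0 1 * (R.A 2 0 * R.A 0 1 - R.A 0 1 * R.A 2 0 + R.A 1 2)) +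
      ((R.A 1 2 * R.A 2 0 - R.A 2 0 * R.A 1 2 + R.A 0 1) * R.A 1 2 +
        R.A 1 2 * (R.A 1 2 * R.A 2 0 - R.A 2 0 * R.A 1 2 + R.A 0 1)) := by
    rw [Cas]; noncomm_ring
  rw [h1, h3] at this
  simpa [sub_eq_zero] using this

lemma Cas_A (a b : Fin 3) : R.A a b * Cas R = Cas R * R.A a b := by
  have hx := Cas_x R
  have hy := Cas_y R
  have hz := Cas_z R
  fin_cases a <;> fin_cases b
  · change R.A 0 0 * _ = _ * R.A 0 0; rw [A_self]; simp
  · exact hx
  · change R.A 0 2 * _ = _ * R.A 0 2; rw [R.anti 2 0, neg_mul, mul_neg, hz]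
  · change R.A 1 0 * _ = _ * R.A 1 0; rw [R.anti 0 1, neg_mul, mul_neg, hx]
  · change R.A 1 1 * _ = _ * R.A 1 1; rw [A_self]; simp
  · exact hy
  · exact hz
  · change R.A 2 1 * _ = _ * R.A 2 1; rw [R.anti 1 2, neg_mul, mul_neg, hy]
  · change R.A 2 2 * _ = _ * R.A 2 2; rw [A_self]; simp

lemma Cas_A_apply (a b : Fin 3) (v : V) : Cas R (R.A a b v) = R.A a b (Cas R v) := by
  have h := congrArg (fun f : V →ₗ[ℝ] V => f v) (Cas_A R a b)
  exact h.symm

lemma inner_Cas (u v : V) : inner ℝ (Cas R u) v =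
    inner ℝ (R.A 0 1 u) (R.A 0 1 v) + inner ℝ (R.A 1 2 u) (R.A 1 2 v) +
      inner ℝ (R.A 2 0 u) (R.A 2 0 v) := by
  rw [Cas_apply, inner_neg_left, inner_add_left, inner_add_left, R.skew 0 1 (R.A 0 1 u) v,
    R.skew 1 2 (R.A 1 2 u) v, R.skew 2 0 (R.A 2 0 u) v]
  ring

lemma Cas_symm : (Cas R).IsSymmetric := by
  intro u v
  have h : inner ℝ u (Cas R v) = inner ℝ (Cas R v) u := real_inner_comm _ _
  rw [h, inner_Cas, inner_Cas, real_inner_comm (R.A 0 1 u), real_inner_comm (R.A 1 2 u),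
    real_inner_comm (R.A 2 0 u)]

lemma inner_Cas_self (v : V) : inner ℝ (Cas R v) v =
    ‖R.A 0 1 v‖ ^ 2 + ‖R.A 1 2 v‖ ^ 2 + ‖R.A 2 0 v‖ ^ 2 := by
  rw [inner_Cas, real_inner_self_eq_norm_sq, real_inner_self_eq_norm_sq,
    real_inner_self_eq_norm_sq]

lemma mem_InvAll_of_Cas (v : V) (h : inner ℝ (Cas R v) v = 0) : v ∈ R.toLieRep.InvAll := by
  rw [inner_Cas_self] at h
  have h0 := sq_nonneg ‖R.A 0 1 v‖
  have h1 := sq_nonneg ‖R.A 1 2 v‖
  have h2 := sq_nonneg ‖R.A 2 0 v‖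
  have hx : R.A 0 1 v = 0 := by
    rw [← norm_eq_zero]; exact pow_eq_zero_iff two_ne_zero |>.1 (by linarith)
  have hy : R.A 1 2 v = 0 := by
    rw [← norm_eq_zero]; exact pow_eq_zero_iff two_ne_zero |>.1 (by linarith)
  have hz : R.A 2 0 v = 0 := by
    rw [← norm_eq_zero]; exact pow_eq_zero_iff two_ne_zero |>.1 (by linarith)
  rw [LieRep.mem_InvAll]
  intro a b
  fin_cases a <;> fin_cases b
  · change R.A 0 0 v = 0; rw [A_self]; simp
  · exact hx
  · change R.A 0 2 v = 0; rw [R.anti 2 0]; simp [hz]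
  · change R.A 1 0 v = 0; rw [R.anti 0 1]; simp [hx]
  · change R.A 1 1 v = 0; rw [A_self]; simp
  · exact hy
  · exact hz
  · change R.A 2 1 v = 0; rw [R.anti 1 2]; simp [hy]
  · change R.A 2 2 v = 0; rw [A_self]; simp

lemma InvAll_iff (v : V) : v ∈ R.toLieRep.InvAll ↔ Cas R v = 0 := by
  constructor
  · intro h
    rw [LieRep.mem_InvAll] at h
    rw [Cas_apply, h, h, h]; simp
  · intro h
    apply mem_InvAll_of_Cas
    rw [h]; simp

lemma inner_rho (g : SO (Fin 3)) (u v : V) : inner ℝ (R.ρ g u) (R.ρ g v) = inner ℝ u v := by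
  have h1 := R.norm_ρ g (u + v)
  have h2 := R.norm_ρ g u
  have h3 := R.norm_ρ g v
  have e1 := norm_add_sq_real (R.ρ g u) (R.ρ g v)
  have e2 := norm_add_sq_real u v
  rw [map_add] at h1
  rw [h1, h2, h3] at e1
  linarith

lemma rho_mul_apply (g h : SO (Fin 3)) (v : V) : R.ρ (g * h) v = R.ρ g (R.ρ h v) := by
  rw [map_mul]; rfl

lemma inner_rho_left (g : SO (Fin 3)) (u v : V) :
    inner ℝ (R.ρ g u) v = inner ℝ u (R.ρ g⁻¹ v) := by
  rw [← inner_rho R g u, ← rho_mul_apply, mul_inv_cancel, map_one]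
  rfl

/-- The sum of the six LPS rotations. -/
noncomputable def BB : V →ₗ[ℝ] V := ∑ j, R.ρ (lps j)

lemma BB_apply (v : V) : BB R v = ∑ j, R.ρ (lps j) v := by
  simp [BB]

lemma BB_symm : (BB R).IsSymmetric := by
  intro u v
  rw [BB_apply, BB_apply, sum_inner, inner_sum]
  let e : Ltr ≃ Ltr := ⟨bar, bar, bar_bar, bar_bar⟩
  rw [← Equiv.sum_comp e (fun j => inner ℝ u (R.ρ (lps j) v))]
  apply sum_congr rfl
  intro j _
  rw [inner_rho_left]
  change _ = inner ℝ u (R.ρ (lps (bar j)) v)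
  rw [lps_bar]

lemma Cas_BB (v : V) : Cas R (BB R v) = BB R (Cas R v) := by
  rw [BB_apply, BB_apply, map_sum]
  apply sum_congr rfl
  intro j _
  rw [Cas_rho_apply]

lemma sum_disp (v : V) : ∑ j, ‖R.ρ (lps j) v - v‖ ^ 2 = 12 * ‖v‖ ^ 2 - 2 * inner ℝ (BB R v) v := by
  have h : ∀ j, ‖R.ρ (lps j) v - v‖ ^ 2 = 2 * ‖v‖ ^ 2 - 2 * inner ℝ (R.ρ (lps j) v) v := by
    intro j
    rw [norm_sub_sq_real, R.norm_ρ]; ring
  simp_rw [h]
  rw [sum_sub_distrib, ← mul_sum, ← mul_sum, ← sum_inner, ← BB_apply, sum_const]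
  have : (univ : Finset (Fin 3 × Bool)).card = 6 := by simp
  rw [this]
  simp
  ring

end three

end Pool.Agent.K3h54.Lps
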