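import Pool.Agent.K3h54.Lps.Rep

/-!
# The gap of the LPS rotations on the representations with a bounded Casimir constant
-/

set_option autoImplicit false

open Finset Matrix

namespace Pool.Agent.K3h54.Lps

open Pool.Agent.K3h92

lemma exists_small_angle (η : ℝ) (hη : 0 < η) :
    ∃ (k : ℕ) (m : ℤ), 1 ≤ k ∧ 0 < |(k : ℝ) * lpsAngle - m * (2 * Real.pi)| ∧
      |(k : ℝ) * lpsAngle - m * (2 * Real.pi)| < η := by
  have hpi := Real.pi_pos
  obtain ⟨n, hn⟩ := exists_nat_gt (2 * Real.pi / η)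
  have hn0 : 0 < n := by
    rcases Nat.eq_zero_or_pos n with h | h
    · subst h
      exfalso
      have : 0 < 2 * Real.pi / η := by positivity
      simp at hn; linarith
    · exact h
  obtain ⟨j, k, hk, hkn, hjk⟩ := Real.exists_int_int_abs_mul_sub_le (lpsAngle / (2 * Real.pi)) hn0
  obtain ⟨k', rfl⟩ : ∃ k' : ℕ, k = k' := ⟨k.toNat, by omega⟩
  have hk' : 1 ≤ k' := by exact_mod_cast hk
  refine ⟨k', j, hk', ?_, ?_⟩
  · rw [abs_pos]
    intro h
    have hk0 : (k' : ℝ) ≠ 0 := by positivity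
    have h1 : lpsAngle = ((2 * j / k' : ℚ) : ℝ) * Real.pi := by
      push_cast
      field_simp
      linarith
    have h2 := niven (θ := lpsAngle) ⟨_, h1⟩ ⟨-3 / 5, by rw [cos_lpsAngle]; push_cast; ring⟩
    rw [cos_lpsAngle] at h2
    simp only [Set.mem_insert_iff, Set.mem_singleton_iff] at h2
    rcases h2 with h | h | h | h | h <;> norm_num at h
  · have e : (k' : ℝ) * lpsAngle - j * (2 * Real.pi) =
        (((k' : ℤ) : ℝ) * (lpsAngle / (2 * Real.pi)) - j) * (2 * Real.pi) := by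
      push_cast
      field_simp
    rw [e, abs_mul, abs_of_pos (by positivity : (0 : ℝ) < 2 * Real.pi)]
    have h1 : 1 / ((n : ℝ) + 1) * (2 * Real.pi) < η := by
      rw [div_lt_iff₀ hη] at hn
      rw [one_div, inv_mul_lt_iff₀ (by positivity)]
      nlinarith
    exact lt_of_le_of_lt (mul_le_mul_of_nonneg_right hjk (by positivity)) h1

section rot

variable {a b : Fin 3} (hab : a ≠ b)

lemma rot_add (s t : ℝ) : rot a b hab (s + t) = rot a b hab s * rot a b hab t := by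
  apply Subtype.ext
  exact rotMat_add hab s t

lemma rot_zero : rot a b hab 0 = 1 := by
  apply Subtype.ext
  exact rotMat_zero a b

lemma rot_nat_mul (k : ℕ) (t : ℝ) : rot a b hab (k * t) = rot a b hab t ^ k := by
  induction k with
  | zero => simp [rot_zero]
  | succ k ih =>
    rw [pow_succ, ← ih, ← rot_add]
    congr 1
    push_cast; ring

lemma rot_sub_period (t : ℝ) (m : ℤ) : rot a b hab (t - m * (2 * Real.pi)) = rot a b hab t := by
  apply Subtype.ext
  change rotMat a b _ = rotMat a b _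
  rw [rotMat, rotMat, Real.cos_sub_int_mul_two_pi, Real.sin_sub_int_mul_two_pi]

variable {V : Type} [NormedAddCommGroup V] [InnerProductSpace ℝ V] (R : SORep (Fin 3) V)

lemma rot_hasDerivAt (w : V) (s : ℝ) :
    HasDerivAt (fun t : ℝ => R.ρ (rot a b hab t) w) (R.ρ (rot a b hab s) (R.A a b w)) s := by
  have hlin : HasDerivAt (fun t : ℝ => R.ρ (rot a b hab t) w) (R.A a b w) (s - s) := by
    rw [sub_self]; exact R.deriv a b hab w
  have h0 : HasDerivAt (fun t : ℝ => R.ρ (rot a b hab (t - s)) w) (R.A a b w) s :=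
    hlin.comp_sub_const s s
  -- the isometry `ρ (rot s)` as a continuous linear map
  let L : V →L[ℝ] V := (R.ρ (rot a b hab s)).mkContinuous 1 (fun v => by rw [R.norm_ρ, one_mul])
  have h1 : HasDerivAt (fun t : ℝ => L (R.ρ (rot a b hab (t - s)) w)) (L (R.A a b w)) s :=
    L.hasFDerivAt.comp_hasDerivAt s h0
  have h2 : (fun t : ℝ => L (R.ρ (rot a b hab (t - s)) w)) = fun t : ℝ => R.ρ (rot a b hab t) w := by
    funext t
    change R.ρ (rot a b hab s) (R.ρ (rot a b hab (t - s)) w) = _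
    rw [← rho_mul_apply, ← rot_add]
    congr 3
    ring
  rw [h2] at h1
  exact h1

lemma rot_disp_le (w : V) (t : ℝ) : ‖R.ρ (rot a b hab t) w - w‖ ≤ ‖R.A a b w‖ * |t| := by
  have h := Convex.norm_image_sub_le_of_norm_hasDerivWithin_le
    (f := fun t : ℝ => R.ρ (rot a b hab t) w)
    (f' := fun s : ℝ => R.ρ (rot a b hab s) (R.A a b w)) (s := Set.univ) (x := 0) (y := t)
    (C := ‖R.A a b w‖)
    (fun x _ => (rot_hasDerivAt hab R w x).hasDerivWithinAt)
    (fun x _ => by rw [R.norm_ρ]) convex_univ (Set.mem_univ _) (Set.mem_univ _)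
  simp only [rot_zero, map_one, sub_zero] at h
  exact h

lemma rot_disp_le_two (v : V) (t : ℝ) :
    ‖R.ρ (rot a b hab t) v - v - t • R.A a b v‖ ≤ ‖R.A a b (R.A a b v)‖ * |t| * |t| := by
  have h := Convex.norm_image_sub_le_of_norm_hasDerivWithin_le
    (f := fun s : ℝ => R.ρ (rot a b hab s) v - s • R.A a b v)
    (f' := fun s : ℝ => R.ρ (rot a b hab s) (R.A a b v) - R.A a b v)
    (s := Set.Icc (-|t|) |t|) (x := 0) (y := t)
    (C := ‖R.A a b (R.A a b v)‖ * |t|)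
    (fun x _ => ?_) (fun x hx => ?_) (convex_Icc _ _) ?_ ?_
  · simp only [rot_zero, map_one, sub_zero, zero_smul] at h
    have e : R.ρ (rot a b hab t) v - v - t • R.A a b v =
        R.ρ (rot a b hab t) v - t • R.A a b v - (1 : V →ₗ[ℝ] V) v := by
      simp only [Module.End.one_apply]; abel
    rw [e]
    exact h
  · apply HasDerivAt.hasDerivWithinAt
    apply (rot_hasDerivAt hab R v x).sub
    have := (hasDerivAt_id x).smul_const (R.A a b v)
    simpa using this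
  · refine (rot_disp_le hab R (R.A a b v) x).trans ?_
    apply mul_le_mul_of_nonneg_left _ (norm_nonneg _)
    exact abs_le.2 ⟨hx.1, hx.2⟩
  · exact ⟨by simp, by simp⟩
  · exact ⟨neg_abs_le t, le_abs_self t⟩

/-- the displacement by a power -/
lemma disp_pow (g : SO (Fin 3)) (v : V) (k : ℕ) :
    ‖R.ρ (g ^ k) v - v‖ ≤ k * ‖R.ρ g v - v‖ := by
  induction k with
  | zero => simp
  | succ k ih =>
    have e : R.ρ (g ^ (k + 1)) v - v = R.ρ (g ^ k) (R.ρ g v - v) + (R.ρ (g ^ k) v - v) := by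
      rw [pow_succ, rho_mul_apply, map_sub]; abel
    rw [e]
    refine (norm_add_le _ _).trans ?_
    rw [R.norm_ρ]
    push_cast
    linarith

end rot

section

variable {V : Type} [NormedAddCommGroup V] [InnerProductSpace ℝ V] (R : SORep (Fin 3) V)
  (e : ℝ) (hcas : ∀ v, Cas R v = e • v)

include hcas

lemma sum_sq_A (v : V) : ‖R.A 0 1 v‖ ^ 2 + ‖R.A 1 2 v‖ ^ 2 + ‖R.A 2 0 v‖ ^ 2 = e * ‖v‖ ^ 2 := by
  rw [← inner_Cas_self, hcas, inner_smul_left, real_inner_self_eq_norm_sq]; rfl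

lemma norm_plane_le (he : 0 ≤ e) (p : Fin 3) (v : V) :
    ‖R.A (plane p).1 (plane p).2 v‖ ≤ Real.sqrt e * ‖v‖ := by
  have h := sum_sq_A R e hcas v
  have h0 := sq_nonneg ‖R.A 0 1 v‖
  have h1 := sq_nonneg ‖R.A 1 2 v‖
  have h2 := sq_nonneg ‖R.A 2 0 v‖
  apply abs_le_of_sq_le_sq' _ (by positivity) |>.2
  rw [mul_pow, Real.sq_sqrt he]
  fin_cases p
  · change ‖R.A 0 1 v‖ ^ 2 ≤ _; linarith
  · change ‖R.A 1 2 v‖ ^ 2 ≤ _; linarith
  · change ‖R.A 2 0 v‖ ^ 2 ≤ _; linarith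

lemma norm_plane_two_le (he : 0 ≤ e) (p q : Fin 3) (v : V) :
    ‖R.A (plane p).1 (plane p).2 (R.A (plane q).1 (plane q).2 v)‖ ≤ e * ‖v‖ := by
  refine (norm_plane_le R e hcas he p _).trans ?_
  have := norm_plane_le R e hcas he q v
  calc Real.sqrt e * ‖R.A (plane q).1 (plane q).2 v‖ ≤ Real.sqrt e * (Real.sqrt e * ‖v‖) := by
        gcongr
    _ = e * ‖v‖ := by rw [← mul_assoc, Real.mul_self_sqrt he]

lemma e_ge (he : 0 < e) (v : V) (hv : ‖v‖ = 1) : 1 / 12 ≤ e := by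
  have h := sum_sq_A R e hcas v
  rw [hv] at h
  have bx : ‖R.A 0 1 v‖ ≤ 2 * e := by
    have h1 := congrArg (fun f : V →ₗ[ℝ] V => f v) (br_yz R)
    simp only [LinearMap.add_apply, LinearMap.sub_apply, Module.End.mul_apply,
      LinearMap.zero_apply] at h1
    have h2 : R.A 0 1 v = R.A 2 0 (R.A 1 2 v) - R.A 1 2 (R.A 2 0 v) := by
      rw [← sub_eq_zero, ← h1]; abel
    rw [h2]
    have a1 := norm_plane_two_le R e hcas he.le 2 1 v
    have a2 := norm_plane_two_le R e hcas he.le 1 2 v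
    rw [hv] at a1 a2
    refine (norm_sub_le _ _).trans ?_
    change ‖R.A 2 0 (R.A 1 2 v)‖ ≤ _ at a1
    change ‖R.A 1 2 (R.A 2 0 v)‖ ≤ _ at a2
    linarith
  have by' : ‖R.A 1 2 v‖ ≤ 2 * e := by
    have h1 := congrArg (fun f : V →ₗ[ℝ] V => f v) (br_zx R)
    simp only [LinearMap.add_apply, LinearMap.sub_apply, Module.End.mul_apply,
      LinearMap.zero_apply] at h1
    have h2 : R.A 1 2 v = R.A 0 1 (R.A 2 0 v) - R.A 2 0 (R.A 0 1 v) := by
      rw [← sub_eq_zero, ← h1]; abel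
    rw [h2]
    have a1 := norm_plane_two_le R e hcas he.le 0 2 v
    have a2 := norm_plane_two_le R e hcas he.le 2 0 v
    rw [hv] at a1 a2
    refine (norm_sub_le _ _).trans ?_
    change ‖R.A 0 1 (R.A 2 0 v)‖ ≤ _ at a1
    change ‖R.A 2 0 (R.A 0 1 v)‖ ≤ _ at a2
    linarith
  have bz : ‖R.A 2 0 v‖ ≤ 2 * e := by
    have h1 := congrArg (fun f : V →ₗ[ℝ] V => f v) (br_xy R)
    simp only [LinearMap.add_apply, LinearMap.sub_apply, Module.End.mul_apply,
      LinearMap.zero_apply] at h1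
    have h2 : R.A 2 0 v = R.A 1 2 (R.A 0 1 v) - R.A 0 1 (R.A 1 2 v) := by
      rw [← sub_eq_zero, ← h1]; abel
    rw [h2]
    have a1 := norm_plane_two_le R e hcas he.le 1 0 v
    have a2 := norm_plane_two_le R e hcas he.le 0 1 v
    rw [hv] at a1 a2
    refine (norm_sub_le _ _).trans ?_
    change ‖R.A 1 2 (R.A 0 1 v)‖ ≤ _ at a1
    change ‖R.A 0 1 (R.A 1 2 v)‖ ≤ _ at a2
    linarith
  have c1 : ‖R.A 0 1 v‖ ^ 2 ≤ (2 * e) ^ 2 := pow_le_pow_left₀ (norm_nonneg _) bx 2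
  have c2 : ‖R.A 1 2 v‖ ^ 2 ≤ (2 * e) ^ 2 := pow_le_pow_left₀ (norm_nonneg _) by' 2
  have c3 : ‖R.A 2 0 v‖ ^ 2 ≤ (2 * e) ^ 2 := pow_le_pow_left₀ (norm_nonneg _) bz 2
  by_contra hlt
  push Not at hlt
  nlinarith

lemma exists_plane (he : 0 < e) (v : V) (hv : ‖v‖ = 1) :
    ∃ p : Fin 3, 1 / 6 ≤ ‖R.A (plane p).1 (plane p).2 v‖ := by
  by_contra h
  push Not at h
  have h1 := sum_sq_A R e hcas v
  rw [hv] at h1
  have h2 := e_ge R e hcas he v hv
  have c0 : ‖R.A 0 1 v‖ < 1 / 6 := h 0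
  have c1 : ‖R.A 1 2 v‖ < 1 / 6 := h 1
  have c2 : ‖R.A 2 0 v‖ < 1 / 6 := h 2
  have d0 : ‖R.A 0 1 v‖ ^ 2 < (1 / 6) ^ 2 := pow_lt_pow_left₀ c0 (norm_nonneg _) (by norm_num)
  have d1 : ‖R.A 1 2 v‖ ^ 2 < (1 / 6) ^ 2 := pow_lt_pow_left₀ c1 (norm_nonneg _) (by norm_num)
  have d2 : ‖R.A 2 0 v‖ ^ 2 < (1 / 6) ^ 2 := pow_lt_pow_left₀ c2 (norm_nonneg _) (by norm_num)
  nlinarith

end

/-- The gap on the representations with Casimir constant at most `e0`. -/
theorem small (e0 : ℝ) (he0 : 0 < e0) : ∃ δ : ℝ, 0 < δ ∧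
    ∀ (V : Type) [NormedAddCommGroup V] [InnerProductSpace ℝ V] (R : SORep (Fin 3) V) (e : ℝ)
      (_ : 0 < e) (_ : e ≤ e0) (_ : ∀ v, Cas R v = e • v) (v : V) (_ : ‖v‖ = 1) (lam : ℝ)
      (_ : BB R v = lam • v), lam ≤ 6 - δ := by
  obtain ⟨k, m, hk, ht0, ht1⟩ := exists_small_angle (1 / (12 * e0)) (by positivity)
  set t : ℝ := (k : ℝ) * lpsAngle - m * (2 * Real.pi) with ht
  have hk0 : (0 : ℝ) < k := by exact_mod_cast hk
  set d0 : ℝ := |t| / (12 * k) with hd0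
  have hd0p : 0 < d0 := by positivity
  refine ⟨d0 ^ 2 / 2, by positivity, ?_⟩
  intro V _ _ R e he hee hcas v hv lam hlam
  obtain ⟨p, hp⟩ := exists_plane R e hcas he v hv
  set a := (plane p).1 with ha
  set b := (plane p).2 with hb
  have hab : a ≠ b := plane_ne p
  -- displacement by the LPS rotation of the plane
  set d : ℝ := ‖R.ρ (lps (p, true)) v - v‖ with hd
  have h1 : ‖R.ρ (rot a b hab t) v - v‖ ≤ k * d := by
    have : rot a b hab t = lps (p, true) ^ k := by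
      rw [ht, rot_sub_period, rot_nat_mul]
      rfl
    rw [this]
    exact disp_pow R _ v k
  have h2 := rot_disp_le_two hab R v t
  have h3 : ‖R.A a b (R.A a b v)‖ ≤ e := by
    have := norm_plane_two_le R e hcas he.le p p v
    rw [hv, mul_one] at this
    exact this
  have h4 : |t| * ‖R.A a b v‖ ≤ k * d + e * |t| * |t| := by
    have e1 : |t| * ‖R.A a b v‖ = ‖t • R.A a b v‖ := by rw [norm_smul]; rfl
    have e2 : t • R.A a b v = (R.ρ (rot a b hab t) v - v) -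
        (R.ρ (rot a b hab t) v - v - t • R.A a b v) := by abel
    rw [e1, e2]
    refine (norm_sub_le _ _).trans (add_le_add h1 (h2.trans ?_))
    gcongr
  have h5 : e * |t| ≤ 1 / 12 := by
    calc e * |t| ≤ e0 * (1 / (12 * e0)) := by gcongr
      _ = 1 / 12 := by field_simp
  have h6 : |t| / 12 ≤ k * d := by
    have h7 : |t| * (1 / 6) ≤ |t| * ‖R.A a b v‖ := by gcongr
    have h8 : e * |t| * |t| ≤ 1 / 12 * |t| := by gcongr
    linarith
  have h7 : d0 ≤ d := by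
    rw [hd0, div_le_iff₀ (by positivity)]
    linarith
  have h8 := sum_disp R v
  have h9 : d ^ 2 ≤ ∑ j, ‖R.ρ (lps j) v - v‖ ^ 2 :=
    single_le_sum (f := fun j => ‖R.ρ (lps j) v - v‖ ^ 2) (fun j _ => sq_nonneg _)
      (mem_univ (p, true))
  rw [hlam, inner_smul_left, real_inner_self_eq_norm_sq, hv] at h8
  simp at h8
  have h10 : d0 ^ 2 ≤ d ^ 2 := pow_le_pow_left₀ hd0p.le h7 2
  linarith

end Pool.Agent.K3h54.Lps
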