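import Pool.Agent.K3h92.Lps

/-!
# Reduced words in the six LPS letters and the Hecke polynomials
-/

set_option autoImplicit false

open Finset

namespace Pool.Agent.K3h54.Lps

open Pool.Agent.K3h92

/-- The six letters. -/
abbrev Ltr : Type := Fin 3 × Bool

/-- The inverse letter. -/
def bar (s : Ltr) : Ltr := (s.1, !s.2)

@[simp] lemma bar_bar (s : Ltr) : bar (bar s) = s := by
  rcases s with ⟨a, b⟩; simp [bar]

/-- The letter `s` can be put in front of the reduced word `w`. -/
def ok (s : Ltr) (w : List Ltr) : Bool := decide (w.head? ≠ some (bar s))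

@[simp] lemma ok_nil (s : Ltr) : ok s [] = true := by simp [ok]

lemma ok_cons (s t : Ltr) (w : List Ltr) : ok s (t :: w) = true ↔ t ≠ bar s := by
  simp [ok]

/-- Reduced words of length `k`. -/
def W : ℕ → Finset (List Ltr)
  | 0 => {[]}
  | k + 1 => ((univ ×ˢ W k).filter (fun p : Ltr × List Ltr => ok p.1 p.2 = true)).map
      ⟨fun p => p.1 :: p.2, fun a b h => by
        rcases a with ⟨a1, a2⟩; rcases b with ⟨b1, b2⟩
        simpa using h⟩

lemma mem_W_zero (w : List Ltr) : w ∈ W 0 ↔ w = [] := by simp [W]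

lemma mem_W_succ (k : ℕ) (w : List Ltr) :
    w ∈ W (k + 1) ↔ ∃ s v, v ∈ W k ∧ ok s v = true ∧ w = s :: v := by
  rw [W, mem_map]
  constructor
  · rintro ⟨⟨a, b⟩, h1, rfl⟩
    rw [mem_filter, mem_product] at h1
    exact ⟨a, b, h1.1.2, h1.2, rfl⟩
  · rintro ⟨a, b, h1, h2, rfl⟩
    exact ⟨(a, b), by rw [mem_filter, mem_product]; exact ⟨⟨mem_univ _, h1⟩, h2⟩, rfl⟩

lemma cons_mem_W (k : ℕ) (s : Ltr) (w : List Ltr) :
    s :: w ∈ W (k + 1) ↔ w ∈ W k ∧ ok s w = true := by
  rw [mem_W_succ]
  constructor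
  · rintro ⟨a, b, h1, h2, h3⟩
    obtain ⟨rfl, rfl⟩ := List.cons.inj h3
    exact ⟨h1, h2⟩
  · rintro ⟨h1, h2⟩; exact ⟨s, w, h1, h2, rfl⟩

lemma length_of_mem_W : ∀ (k : ℕ) (w : List Ltr), w ∈ W k → w.length = k
  | 0, w, h => by rw [mem_W_zero] at h; simp [h]
  | k + 1, w, h => by
    rw [mem_W_succ] at h
    obtain ⟨s, v, hv, -, rfl⟩ := h
    simp [length_of_mem_W k v hv]

lemma sum_W_succ {M : Type*} [AddCommMonoid M] (k : ℕ) (f : List Ltr → M) :
    ∑ w ∈ W (k + 1), f w = ∑ s : Ltr, ∑ w ∈ W k, if ok s w = true then f (s :: w) else 0 := by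
  rw [W, sum_map, sum_filter, sum_product]
  rfl

/-- Reduced words of length at most `l` with length of the parity of `l`. -/
def I : ℕ → Finset (List Ltr)
  | 0 => W 0
  | 1 => W 1
  | l + 2 => W (l + 2) ∪ I l

lemma length_of_mem_I : ∀ (l : ℕ) (w : List Ltr), w ∈ I l →
    ∃ j, w.length + 2 * j = l ∧ w ∈ W w.length
  | 0, w, h => ⟨0, by have := length_of_mem_W 0 w h; simp [this], by
      have := length_of_mem_W 0 w h; rw [this]; exact h⟩
  | 1, w, h => ⟨0, by have := length_of_mem_W 1 w h; simp [this], by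
      have := length_of_mem_W 1 w h; rw [this]; exact h⟩
  | l + 2, w, h => by
    rw [I, mem_union] at h
    rcases h with h | h
    · have := length_of_mem_W _ w h
      exact ⟨0, by simp [this], by rw [this]; exact h⟩
    · obtain ⟨j, hj, hw⟩ := length_of_mem_I l w h
      exact ⟨j + 1, by omega, hw⟩

lemma sum_I_succ {M : Type*} [AddCommMonoid M] (l : ℕ) (f : List Ltr → M) :
    ∑ w ∈ I (l + 2), f w = ∑ w ∈ W (l + 2), f w + ∑ w ∈ I l, f w := by
  rw [I, sum_union]
  rw [disjoint_left]
  intro w h1 h2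
  have h3 := length_of_mem_W _ w h1
  obtain ⟨j, hj, -⟩ := length_of_mem_I l w h2
  omega

section

variable {A : Type*} [Ring A] (r : Ltr → A)

/-- Sum of the products over the reduced words of length `k`. -/
def U (k : ℕ) : A := ∑ w ∈ W k, (w.map r).prod

/-- Sum of the products over `I l`. -/
def S (l : ℕ) : A := ∑ w ∈ I l, (w.map r).prod

lemma U_zero : U r 0 = 1 := by simp [U, W]

lemma U_one : U r 1 = ∑ s, r s := by
  rw [U, sum_W_succ]
  simp [W]

lemma head_eq (k : ℕ) (s : Ltr) (hr : ∀ s, r s * r (bar s) = 1) :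
    ∑ w ∈ W (k + 1), r s * (w.map r).prod =
      (∑ w ∈ W (k + 1), if ok s w = true then ((s :: w).map r).prod else 0) +
      ∑ v ∈ W k, if ok (bar s) v = true then (v.map r).prod else 0 := by
  have h1 : ∀ w : List Ltr, r s * (w.map r).prod =
      (if ok s w = true then ((s :: w).map r).prod else 0) +
      (if ok s w = true then 0 else r s * (w.map r).prod) := by
    intro w
    by_cases h : ok s w = true <;> simp [h]
  rw [sum_congr rfl (fun w _ => h1 w), sum_add_distrib]
  congr 1
  rw [sum_W_succ, sum_eq_single (bar s)]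
  · apply sum_congr rfl
    intro v _
    by_cases h : ok (bar s) v = true
    · rw [if_pos h, if_pos h, if_neg]
      · rw [List.map_cons, List.prod_cons, ← mul_assoc, hr, one_mul]
      · rw [ok_cons]; simp
    · rw [if_neg h, if_neg h]
  · intro t _ ht
    apply sum_eq_zero
    intro v _
    by_cases h : ok t v = true
    · rw [if_pos h, if_pos]
      rw [ok_cons]; exact ht
    · rw [if_neg h]
  · intro h; exact absurd (mem_univ _) h

lemma card_ok_nil : (univ.filter (fun s : Ltr => ok (bar s) [] = true)).card = 6 := by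
  decide

lemma card_ok_cons (t : Ltr) (v : List Ltr) :
    (univ.filter (fun s : Ltr => ok (bar s) (t :: v) = true)).card = 5 := by
  have : (univ.filter (fun s : Ltr => ok (bar s) (t :: v) = true)) = univ.erase t := by
    ext s
    simp only [mem_filter, mem_univ, true_and, mem_erase, and_true, ok_cons, bar_bar]
    exact ne_comm
  rw [this, card_erase_of_mem (mem_univ _)]
  simp [Ltr]

lemma mul_U_succ (k : ℕ) (hr : ∀ s, r s * r (bar s) = 1) :
    (∑ s, r s) * U r (k + 1) = U r (k + 2) + (if k = 0 then 6 else 5) * U r k := by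
  rw [U, sum_mul]
  simp_rw [mul_sum]
  rw [sum_congr rfl (fun s _ => head_eq r k s hr), sum_add_distrib]
  congr 1
  · rw [U, sum_W_succ]
  · rw [sum_comm, U, mul_sum]
    apply sum_congr rfl
    intro v hv
    rw [← sum_filter, sum_const, nsmul_eq_mul]
    congr 1
    rcases k with _ | k
    · rw [mem_W_zero] at hv
      subst hv
      rw [card_ok_nil]; simp
    · rw [mem_W_succ] at hv
      obtain ⟨t, v', -, -, rfl⟩ := hv
      rw [card_ok_cons]; simp

lemma S_zero : S r 0 = 1 := U_zero r

lemma S_one : S r 1 = ∑ s, r s := U_one r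

lemma S_succ (l : ℕ) : S r (l + 2) = U r (l + 2) + S r l := by
  rw [S, sum_I_succ]; rfl

lemma mul_S_succ (hr : ∀ s, r s * r (bar s) = 1) : ∀ l : ℕ,
    (∑ s, r s) * S r (l + 1) = S r (l + 2) + 5 * S r l
  | 0 => by
    have h := mul_U_succ r 0 hr
    rw [S_succ]
    have e1 : S r (0 + 1) = U r (0 + 1) := rfl
    have e0 : S r 0 = U r 0 := rfl
    rw [e1, e0, h]
    norm_num
    rw [show (6 : A) = 1 + 5 by norm_num, add_mul, one_mul, add_assoc]
  | 1 => by
    have h := mul_U_succ r 1 hr
    rw [S_succ r 0, S_succ r 1, mul_add, h]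
    have e1 : S r 1 = U r 1 := rfl
    have e0 : S r 0 = 1 := S_zero r
    rw [e0, e1, mul_one, U_one]
    norm_num
    abel
  | (l + 2) => by
    have h := mul_U_succ r (l + 2) hr
    have ih := mul_S_succ hr l
    rw [show l + 2 + 1 = (l + 1) + 2 from rfl, S_succ r (l + 1), mul_add,
      show l + 1 + 2 = l + 2 + 1 from rfl, h, ih, S_succ r (l + 2), S_succ r l]
    simp only [Nat.add_eq_zero_iff, OfNat.ofNat_ne_zero, and_false, if_false, mul_add]
    abel

theorem S_eq_hecke (hr : ∀ s, r s * r (bar s) = 1) : ∀ l : ℕ,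
    S r l = hecke (∑ s, r s) l
  | 0 => by rw [S_zero, hecke]
  | 1 => by rw [S_one, hecke]
  | (l + 2) => by
    rw [hecke, ← S_eq_hecke hr (l + 1), ← S_eq_hecke hr l, mul_S_succ r hr l]
    abel

end

section

variable {A : Type*} [Ring A] (B : A)

lemma mul_hecke_succ (l : ℕ) : B * hecke B (l + 1) = hecke B (l + 2) + 5 * hecke B l := by
  rw [hecke]; abel

/-- The product formula for the Hecke polynomials. -/
theorem hecke_mul : ∀ (l m : ℕ), l ≤ m →
    hecke B l * hecke B m = ∑ i ∈ range (l + 1), 5 ^ i * hecke B (l + m - 2 * i)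
  | 0, m, _ => by simp [hecke]
  | 1, m, h => by
    obtain ⟨m, rfl⟩ : ∃ k, m = k + 1 := ⟨m - 1, by omega⟩
    rw [show hecke B 1 = B from rfl, mul_hecke_succ, sum_range_succ, sum_range_one]
    simp only [pow_zero, one_mul, pow_one, mul_zero, tsub_zero, mul_one]
    rw [show 1 + (m + 1) = m + 2 by ring, Nat.add_sub_cancel]
  | (l + 2), m, h => by
    have h1 := hecke_mul (l + 1) m (by omega)
    have h0 := hecke_mul l m (by omega)
    have c5 : ∀ (i : ℕ) (x : A), B * (5 ^ i * x) = 5 ^ i * (B * x) := by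
      intro i x
      have : Commute (B : A) ((5 : ℕ) : A) := (Nat.cast_commute 5 B).symm
      have h2 : B * (5 : A) ^ i = (5 : A) ^ i * B := by
        have := this.pow_right i
        simpa using this.eq
      rw [← mul_assoc, h2, mul_assoc]
    rw [hecke, sub_mul, mul_assoc, mul_assoc, h1, h0, mul_sum, mul_sum]
    have e1 : ∀ i ∈ range (l + 1 + 1), B * (5 ^ i * hecke B (l + 1 + m - 2 * i)) =
        5 ^ i * hecke B (l + 2 + m - 2 * i) + 5 ^ (i + 1) * hecke B (l + 2 + m - 2 * (i + 1)) := by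
      intro i hi
      rw [mem_range] at hi
      rw [c5]
      obtain ⟨k, hk⟩ : ∃ k, l + 1 + m - 2 * i = k + 1 := ⟨l + m - 2 * i, by omega⟩
      rw [hk, mul_hecke_succ, show l + 2 + m - 2 * i = k + 2 by omega,
        show l + 2 + m - 2 * (i + 1) = k by omega, mul_add, pow_succ, mul_assoc]
    rw [sum_congr rfl e1, sum_add_distrib]
    have e2 : ∀ i ∈ range (l + 1), 5 * (5 ^ i * hecke B (l + m - 2 * i)) =
        5 ^ (i + 1) * hecke B (l + 2 + m - 2 * (i + 1)) := by
      intro i _
      rw [← mul_assoc, pow_succ', show l + 2 + m - 2 * (i + 1) = l + m - 2 * i by omega]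
    rw [sum_congr rfl e2, sum_range_succ (fun i => 5 ^ (i + 1) * hecke B (l + 2 + m - 2 * (i + 1))) (l + 1),
      sum_range_succ (fun i => 5 ^ i * hecke B (l + 2 + m - 2 * i)) (l + 1 + 1)]
    abel

lemma commute_hecke : ∀ l : ℕ, Commute B (hecke B l)
  | 0 => Commute.one_right B
  | 1 => Commute.refl B
  | (l + 2) => by
    rw [hecke]
    have h5 : Commute B (5 : A) := by
      have : Commute (B : A) ((5 : ℕ) : A) := (Nat.cast_commute 5 B).symm
      simpa using this
    exact ((Commute.refl B).mul_right (commute_hecke (l + 1))).sub_right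
      (h5.mul_right (commute_hecke l))

lemma hecke_op : ∀ l : ℕ, hecke (MulOpposite.op B) l = MulOpposite.op (hecke B l)
  | 0 => rfl
  | 1 => rfl
  | (l + 2) => by
    rw [hecke, hecke, hecke_op (l + 1), hecke_op l, ← MulOpposite.op_mul,
      ← (commute_hecke B (l + 1)).eq, MulOpposite.op_sub]
    congr 1
    have h5 : Commute (5 : A) (hecke B l) := by
      have : Commute ((5 : ℕ) : A) (hecke B l) := Nat.cast_commute 5 _
      simpa using this
    rw [h5.eq, MulOpposite.op_mul]
    rfl

end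

end Pool.Agent.K3h54.Lps
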